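import Mathlib

/-!
# Choices of bounded variation: definitions
-/

set_option autoImplicit false

namespace Pool.Agent.J4.H41.KB

open MeasureTheory Set

/-- the lattice points of the cube with centre `x` and radius `r` -/
noncomputable def cube {d : ℕ} (x : Fin d → ℤ) (r : ℕ) : Finset (Fin d → ℤ) :=
  Fintype.piFinset fun k => Finset.Icc (x k - r) (x k + r)

/-- the sum of the lengths of the differences of `F` at `x` in the coordinate directions -/
noncomputable def grad {d : ℕ} {E : Type} [NormedAddCommGroup E] (F : (Fin d → ℤ) → E)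
    (x : Fin d → ℤ) : ℝ :=
  ∑ k, ‖F (x + Pi.single k 1) - F x‖

/-- the position function of the Perron tree with `M` levels at the heights `h 0, h 1, …` -/
noncomputable def tree : ℕ → (ℕ → ℝ) → ℝ → ℝ
  | 0, _, _ => 0
  | M + 1, h, u => if u < 1 / 2 then tree M (fun k => h (k + 1)) (2 * u) / 2
      else (h 0 + tree M (fun k => h (k + 1)) (2 * u - 1)) / 2

/-- its variation function -/
noncomputable def wt : ℕ → (ℕ → ℝ) → ℝ → ℝ
  | 0, _, _ => 0
  | M + 1, h, u => if u < 1 / 2 then wt M (fun k => h (k + 1)) (2 * u) / 2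
      else (wt M (fun k => h (k + 1)) 1 + |h 0 + tree M (fun k => h (k + 1)) 0 -
        tree M (fun k => h (k + 1)) 1| + wt M (fun k => h (k + 1)) (2 * u - 1)) / 2

end Pool.Agent.J4.H41.KB
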