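import Pool.Agent.J4.H41.KB.Defs

/-! # Project KB, piece P1 (helper45): the slices of the Perron tree -/

set_option autoImplicit false

namespace Pool.Agent.J4.H41.KB

open MeasureTheory Set

namespace P1

theorem tree_lt (M : ℕ) (h : ℕ → ℝ) {u : ℝ} (hu : u < 1 / 2) :
    tree (M + 1) h u = tree M (fun k => h (k + 1)) (2 * u) / 2 := by
  simp only [tree]
  rw [if_pos hu]

theorem tree_ge (M : ℕ) (h : ℕ → ℝ) {u : ℝ} (hu : 1 / 2 ≤ u) :
    tree (M + 1) h u = (h 0 + tree M (fun k => h (k + 1)) (2 * u - 1)) / 2 := by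
  simp only [tree]
  rw [if_neg (not_lt.2 hu)]

/-- the tree is close to the line -/
theorem tree_near (M : ℕ) (t : ℝ) : ∀ (h : ℕ → ℝ) (u : ℝ), u ∈ Icc (0 : ℝ) 1 →
    |tree M h u - t * u| ≤
      ∑ k ∈ Finset.range M, (1 / 2) ^ (k + 1) * |h k - t| + (1 / 2) ^ M * |t| := by
  induction M with
  | zero =>
    intro h u hu
    simp only [tree, Finset.range_zero, Finset.sum_empty, pow_zero, one_mul, zero_add, zero_sub,
      abs_neg, abs_mul]
    exact mul_le_of_le_one_right (abs_nonneg t) (by rw [abs_of_nonneg hu.1]; exact hu.2)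
  | succ M ih =>
    intro h u hu
    have e : ∑ k ∈ Finset.range (M + 1), ((1 : ℝ) / 2) ^ (k + 1) * |h k - t| +
        (1 / 2) ^ (M + 1) * |t| = |h 0 - t| / 2 +
        (∑ k ∈ Finset.range M, ((1 : ℝ) / 2) ^ (k + 1) * |h (k + 1) - t| + (1 / 2) ^ M * |t|) / 2 := by
      rw [Finset.sum_range_succ', add_div, Finset.sum_div, pow_succ]
      have : ∑ k ∈ Finset.range M, ((1 : ℝ) / 2) ^ (k + 1 + 1) * |h (k + 1) - t| =
          ∑ k ∈ Finset.range M, ((1 : ℝ) / 2) ^ (k + 1) * |h (k + 1) - t| / 2 :=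
        Finset.sum_congr rfl fun k _ => by rw [pow_succ]; ring
      rw [this]
      ring
    rw [e]
    rcases lt_or_ge u (1 / 2) with h1 | h1
    · rw [tree_lt M h h1]
      have h2 := ih (fun k => h (k + 1)) (2 * u) ⟨by linarith [hu.1], by linarith⟩
      have e2 : tree M (fun k => h (k + 1)) (2 * u) / 2 - t * u =
          (tree M (fun k => h (k + 1)) (2 * u) - t * (2 * u)) / 2 := by ring
      rw [e2, abs_div, abs_of_pos (by norm_num : (0 : ℝ) < 2)]
      have h3 := abs_nonneg (h 0 - t)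
      linarith
    · rw [tree_ge M h h1]
      have h2 := ih (fun k => h (k + 1)) (2 * u - 1) ⟨by linarith, by linarith [hu.2]⟩
      have e2 : (h 0 + tree M (fun k => h (k + 1)) (2 * u - 1)) / 2 - t * u =
          (h 0 - t) / 2 + (tree M (fun k => h (k + 1)) (2 * u - 1) - t * (2 * u - 1)) / 2 := by ring
      rw [e2]
      refine (abs_add_le _ _).trans ?_
      rw [abs_div, abs_div, abs_of_pos (by norm_num : (0 : ℝ) < 2)]
      linarith

/-- the slice set -/
def sl (M : ℕ) (h : ℕ → ℝ) (t ρ : ℝ) : Set ℝ :=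
  {p : ℝ | ∃ u ∈ Icc (0 : ℝ) 1, |p - (tree M h u - t * u)| ≤ ρ}

theorem sl_step (M : ℕ) (h : ℕ → ℝ) (t ρ : ℝ) :
    volume (sl (M + 1) h t ρ) ≤ volume (sl M (fun k => h (k + 1)) t (2 * ρ)) := by
  set S := sl M (fun k => h (k + 1)) t (2 * ρ) with hS
  have hsub : sl (M + 1) h t ρ ⊆ (fun p : ℝ => 2 * p) ⁻¹' S ∪
      (fun p : ℝ => 2 * p) ⁻¹' ((fun p : ℝ => p + -(h 0 - t)) ⁻¹' S) := by
    rintro p ⟨u, hu, hp⟩
    rcases lt_or_ge u (1 / 2) with h1 | h1
    · left
      refine ⟨2 * u, ⟨by linarith [hu.1], by linarith⟩, ?_⟩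
      rw [tree_lt M h h1] at hp
      have e : 2 * p - (tree M (fun k => h (k + 1)) (2 * u) - t * (2 * u)) =
          2 * (p - (tree M (fun k => h (k + 1)) (2 * u) / 2 - t * u)) := by ring
      rw [e, abs_mul, abs_of_pos (by norm_num : (0 : ℝ) < 2)]
      linarith
    · right
      refine ⟨2 * u - 1, ⟨by linarith, by linarith [hu.2]⟩, ?_⟩
      rw [tree_ge M h h1] at hp
      have e : 2 * p + -(h 0 - t) - (tree M (fun k => h (k + 1)) (2 * u - 1) - t * (2 * u - 1)) =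
          2 * (p - ((h 0 + tree M (fun k => h (k + 1)) (2 * u - 1)) / 2 - t * u)) := by ring
      show |2 * p + -(h 0 - t) - _| ≤ _
      rw [e, abs_mul, abs_of_pos (by norm_num : (0 : ℝ) < 2)]
      linarith
  have hhalf : ∀ T : Set ℝ, volume ((fun p : ℝ => 2 * p) ⁻¹' T) = ENNReal.ofReal (1 / 2) * volume T := by
    intro T
    rw [Real.volume_preimage_mul_left (by norm_num : (2 : ℝ) ≠ 0)]
    norm_num
  refine (measure_mono hsub).trans ((measure_union_le _ _).trans ?_)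
  rw [hhalf, hhalf, measure_preimage_add_right, ← add_mul, ← ENNReal.ofReal_add (by norm_num)
    (by norm_num)]
  norm_num

end P1

open P1

theorem slice (M : ℕ) (h : ℕ → ℝ) (t ρ : ℝ) (hρ : 0 ≤ ρ) {j : ℕ} (hj : j ≤ M) :
    volume {p : ℝ | ∃ u ∈ Icc (0 : ℝ) 1, |p - (tree M h u - t * u)| ≤ ρ} ≤
      ENNReal.ofReal (2 * (2 ^ j * ρ + ∑ k ∈ Finset.range (M - j), (1 / 2) ^ (k + 1) * |h (j + k) - t| +
        (1 / 2) ^ (M - j) * |t|)) := by
  change volume (sl M h t ρ) ≤ _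
  induction j generalizing M h ρ with
  | zero =>
    set S := ∑ k ∈ Finset.range M, ((1 : ℝ) / 2) ^ (k + 1) * |h k - t| + (1 / 2) ^ M * |t| with hS
    have hsub : sl M h t ρ ⊆ Icc (-(ρ + S)) (ρ + S) := by
      rintro p ⟨u, hu, hp⟩
      have h1 := tree_near M t h u hu
      rw [← hS] at h1
      rw [Set.mem_Icc, ← abs_le]
      have h2 : p = (p - (tree M h u - t * u)) + (tree M h u - t * u) := by ring
      rw [h2]
      exact (abs_add_le _ _).trans (add_le_add hp h1)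
    refine (measure_mono hsub).trans ?_
    rw [Real.volume_Icc]
    apply ENNReal.ofReal_le_ofReal
    have e : ∑ k ∈ Finset.range (M - 0), ((1 : ℝ) / 2) ^ (k + 1) * |h (0 + k) - t| =
        ∑ k ∈ Finset.range M, ((1 : ℝ) / 2) ^ (k + 1) * |h k - t| :=
      Finset.sum_congr rfl fun k _ => by rw [zero_add]
    rw [e, Nat.sub_zero, pow_zero, one_mul]
    linarith
  | succ j ih =>
    obtain ⟨M', rfl⟩ : ∃ M', M = M' + 1 := ⟨M - 1, by omega⟩
    refine (sl_step M' h t ρ).trans ?_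
    refine (ih M' (fun k => h (k + 1)) (2 * ρ) (by linarith) (by omega)).trans ?_
    apply ENNReal.ofReal_le_ofReal
    have e1 : M' + 1 - (j + 1) = M' - j := by omega
    have e2 : ∑ k ∈ Finset.range (M' - j), ((1 : ℝ) / 2) ^ (k + 1) * |h (j + 1 + k) - t| =
        ∑ k ∈ Finset.range (M' - j), ((1 : ℝ) / 2) ^ (k + 1) * |h (j + k + 1) - t| :=
      Finset.sum_congr rfl fun k _ => by rw [show j + 1 + k = j + k + 1 by ring]
    rw [e1, e2, pow_succ]
    apply le_of_eq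
    ring

theorem P1.sum_half (n : ℕ) :
    ∑ k ∈ Finset.range n, ((1 : ℝ) / 2) ^ (k + 1) * (k + 1) = 2 - (n + 2) * (1 / 2) ^ n := by
  induction n with
  | zero => simp
  | succ n ih =>
    rw [Finset.sum_range_succ, ih, pow_succ]
    push_cast
    ring

theorem P1.half_pow_le {n : ℕ} (hn : 1 ≤ n) : ((1 : ℝ) / 2) ^ n ≤ 1 / n := by
  have h1 : (n : ℝ) ≤ 2 ^ n := by exact_mod_cast n.lt_two_pow_self.le
  have h2 : (0 : ℝ) < n := by exact_mod_cast hn
  rw [one_div_pow]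
  exact one_div_le_one_div_of_le h2 h1

theorem slice_lin (B : ℝ) (hB : 0 < B) : ∃ C : ℝ, 0 < C ∧ ∀ M : ℕ, 1 ≤ M → ∀ t ρ : ℝ, |t| ≤ B → 0 ≤ ρ →
    ρ * 4 ^ M ≤ 1 → 
    volume {p : ℝ | ∃ u ∈ Icc (0 : ℝ) 1, |p - (tree M (fun k => B * (4 * k / M - 1)) u - t * u)| ≤
      ρ} ≤ ENNReal.ofReal (C / M) := by
  refine ⟨2 + 20 * B, by positivity, fun M hM t ρ ht hρ hρM => ?_⟩
  have hM0 : (0 : ℝ) < M := by exact_mod_cast hM
  obtain ⟨ht1, ht2⟩ := abs_le.1 ht
  -- the level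
  set y : ℝ := M * (t / B + 1) / 4 with hy
  have htB1 : -1 ≤ t / B := by rw [le_div_iff₀ hB]; linarith
  have htB2 : t / B ≤ 1 := by rw [div_le_iff₀ hB]; linarith
  have hy0 : 0 ≤ y := by
    rw [hy]
    have : 0 ≤ t / B + 1 := by linarith
    positivity
  have hyM : y ≤ M / 2 := by
    rw [hy]
    nlinarith
  obtain ⟨j, hjdef⟩ : ∃ j, j = ⌊y⌋₊ := ⟨_, rfl⟩
  have hj1 : (j : ℝ) ≤ y := by rw [hjdef]; exact Nat.floor_le hy0
  have hj2 : y < j + 1 := by rw [hjdef]; exact Nat.lt_floor_add_one y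
  have hjM : j ≤ M := by
    have h1 : (j : ℝ) ≤ M := by linarith
    exact_mod_cast h1
  have hn : ((M - j : ℕ) : ℝ) = M - j := by rw [Nat.cast_sub hjM]
  have hn2 : (M : ℝ) / 2 ≤ ((M - j : ℕ) : ℝ) := by rw [hn]; linarith
  have hn1 : 1 ≤ M - j := by
    have h1 : (0 : ℝ) < ((M - j : ℕ) : ℝ) := by linarith
    have h2 : 0 < M - j := by exact_mod_cast h1
    exact h2
  refine (slice M (fun k => B * (4 * k / M - 1)) t ρ hρ hjM).trans ?_
  apply ENNReal.ofReal_le_ofReal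
  -- first term
  have t1 : 2 ^ j * ρ ≤ 1 / M := by
    have h1 : (2 : ℝ) ^ j ≤ 2 ^ M := pow_le_pow_right₀ (by norm_num) hjM
    have h2 : ρ ≤ (1 / 4) ^ M := by
      rw [one_div_pow, le_div_iff₀ (by positivity)]
      exact hρM
    calc 2 ^ j * ρ ≤ 2 ^ M * (1 / 4) ^ M := mul_le_mul h1 h2 hρ (by positivity)
      _ = (1 / 2) ^ M := by rw [← mul_pow]; norm_num
      _ ≤ 1 / M := half_pow_le hM
  -- second term
  have t2 : ∑ k ∈ Finset.range (M - j), ((1 : ℝ) / 2) ^ (k + 1) *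
      |(fun k : ℕ => B * (4 * (k : ℝ) / M - 1)) (j + k) - t| ≤ 4 * B / M * 2 := by
    have h1 : ∀ k ∈ Finset.range (M - j), ((1 : ℝ) / 2) ^ (k + 1) *
        |(fun k : ℕ => B * (4 * (k : ℝ) / M - 1)) (j + k) - t| ≤
        4 * B / M * (((1 : ℝ) / 2) ^ (k + 1) * (k + 1)) := by
      intro k _
      have h2 : |(fun k : ℕ => B * (4 * (k : ℝ) / M - 1)) (j + k) - t| ≤ 4 * B / M * (k + 1) := by
        have e : (fun k : ℕ => B * (4 * (k : ℝ) / M - 1)) (j + k) - t =
            4 * B / M * (k + (j - y)) := by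
          simp only [hy]
          push_cast
          field_simp
          ring
        rw [e, abs_mul, abs_of_pos (by positivity)]
        refine mul_le_mul_of_nonneg_left ?_ (by positivity)
        have hk : (0 : ℝ) ≤ k := Nat.cast_nonneg k
        rw [abs_le]
        constructor <;> linarith
      calc _ ≤ ((1 : ℝ) / 2) ^ (k + 1) * (4 * B / M * (k + 1)) :=
            mul_le_mul_of_nonneg_left h2 (by positivity)
        _ = _ := by ring
    refine (Finset.sum_le_sum h1).trans ?_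
    rw [← Finset.mul_sum, sum_half]
    refine mul_le_mul_of_nonneg_left ?_ (by positivity)
    have : (0 : ℝ) ≤ (((M - j : ℕ) : ℝ) + 2) * (1 / 2) ^ (M - j) := by positivity
    linarith
  -- third term
  have t3 : ((1 : ℝ) / 2) ^ (M - j) * |t| ≤ 2 * B / M := by
    have h1 : ((1 : ℝ) / 2) ^ (M - j) ≤ 2 / M := by
      refine (half_pow_le hn1).trans ?_
      rw [div_le_div_iff₀ (by linarith) hM0]
      linarith
    calc ((1 : ℝ) / 2) ^ (M - j) * |t| ≤ 2 / M * B := mul_le_mul h1 ht (abs_nonneg _) (by positivity)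
      _ = 2 * B / M := by ring
  have e : (2 + 20 * B) / M = 2 * (1 / M + 4 * B / M * 2 + 2 * B / M) := by
    field_simp
    ring
  rw [e]
  linarith

end Pool.Agent.J4.H41.KB
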