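import Pool.Agent.J4.H41.KB.Defs

/-!
# The variation of the Perron tree
-/

set_option autoImplicit false

namespace Pool.Agent.J4.H41.KB

open MeasureTheory Set

theorem tree_wt (M : ℕ) (h : ℕ → ℝ) : wt M h 0 = 0 ∧ ∀ u v, 0 ≤ u → u ≤ v → v ≤ 1 →
    |tree M h v - tree M h u| ≤ wt M h v - wt M h u := by
  induction M generalizing h with
  | zero =>
    refine ⟨rfl, fun u v _ _ _ => ?_⟩
    simp [tree, wt]
  | succ M ih =>
    obtain ⟨h0, h1⟩ := ih fun k => h (k + 1)
    constructor
    · unfold wt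
      rw [if_pos (by norm_num), mul_zero, h0, zero_div]
    · intro u v hu huv hv
      unfold tree wt
      by_cases hv2 : v < 1 / 2
      · have hu2 : u < 1 / 2 := by linarith
        rw [if_pos hv2, if_pos hu2, if_pos hv2, if_pos hu2]
        have := h1 (2 * u) (2 * v) (by linarith) (by linarith) (by linarith)
        rw [← sub_div, ← sub_div, abs_div, abs_of_pos (by norm_num : (0 : ℝ) < 2)]
        linarith
      · by_cases hu2 : u < 1 / 2
        · rw [if_neg hv2, if_pos hu2, if_neg hv2, if_pos hu2]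
          push Not at hv2
          have a1 := h1 0 (2 * v - 1) le_rfl (by linarith) (by linarith)
          have a2 := h1 (2 * u) 1 (by linarith) (by linarith) le_rfl
          rw [h0] at a1
          have e1 : (h 0 + tree M (fun k => h (k + 1)) (2 * v - 1)) / 2 -
              tree M (fun k => h (k + 1)) (2 * u) / 2 =
              ((tree M (fun k => h (k + 1)) (2 * v - 1) - tree M (fun k => h (k + 1)) 0) +
                (h 0 + tree M (fun k => h (k + 1)) 0 - tree M (fun k => h (k + 1)) 1) +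
                (tree M (fun k => h (k + 1)) 1 - tree M (fun k => h (k + 1)) (2 * u))) / 2 := by
            ring
          rw [e1, abs_div, abs_of_pos (by norm_num : (0 : ℝ) < 2)]
          have a3 := abs_add_three
            (tree M (fun k => h (k + 1)) (2 * v - 1) - tree M (fun k => h (k + 1)) 0)
            (h 0 + tree M (fun k => h (k + 1)) 0 - tree M (fun k => h (k + 1)) 1)
            (tree M (fun k => h (k + 1)) 1 - tree M (fun k => h (k + 1)) (2 * u))
          linarith
        · rw [if_neg hv2, if_neg hu2, if_neg hv2, if_neg hu2]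
          push Not at hv2 hu2
          have := h1 (2 * u - 1) (2 * v - 1) (by linarith) (by linarith) (by linarith)
          have e1 : (h 0 + tree M (fun k => h (k + 1)) (2 * v - 1)) / 2 -
              (h 0 + tree M (fun k => h (k + 1)) (2 * u - 1)) / 2 =
              (tree M (fun k => h (k + 1)) (2 * v - 1) -
                tree M (fun k => h (k + 1)) (2 * u - 1)) / 2 := by
            ring
          rw [e1, abs_div, abs_of_pos (by norm_num : (0 : ℝ) < 2)]
          linarith

lemma tree_zero (M : ℕ) (h : ℕ → ℝ) : tree M h 0 = 0 := by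
  induction M generalizing h with
  | zero => rfl
  | succ M ih =>
    unfold tree
    rw [if_pos (by norm_num), mul_zero, ih, zero_div]

lemma tree_one (M : ℕ) (h : ℕ → ℝ) :
    tree (M + 1) h 1 = (h 0 + tree M (fun k => h (k + 1)) 1) / 2 := by
  conv_lhs => unfold tree
  rw [if_neg (by norm_num)]
  norm_num

lemma wt_one (M : ℕ) (h : ℕ → ℝ) :
    wt (M + 1) h 1 = wt M (fun k => h (k + 1)) 1 +
      |h 0 - tree M (fun k => h (k + 1)) 1| / 2 := by
  conv_lhs => unfold wt
  rw [if_neg (by norm_num), tree_zero]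
  norm_num
  ring

lemma shift_lin (a δ : ℝ) : (fun k : ℕ => a + δ * ((k + 1 : ℕ) : ℝ)) =
    fun k : ℕ => (a + δ) + δ * (k : ℝ) := by
  funext k
  push_cast
  ring

lemma tree_lin (M : ℕ) (a δ : ℝ) :
    |tree M (fun k => a + δ * (k : ℝ)) 1 - a| ≤ (1 / 2) ^ M * |a| + 2 * |δ| := by
  induction M generalizing a with
  | zero =>
    unfold tree
    rw [zero_sub, abs_neg, pow_zero, one_mul]
    linarith [abs_nonneg δ]
  | succ M ih =>
    rw [tree_one, shift_lin]
    have h1 := ih (a + δ)
    have e1 : (a + δ * ((0 : ℕ) : ℝ) + tree M (fun k => (a + δ) + δ * (k : ℝ)) 1) / 2 - a =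
        ((tree M (fun k => (a + δ) + δ * (k : ℝ)) 1 - (a + δ)) + δ) / 2 := by
      push_cast
      ring
    rw [e1, abs_div, abs_of_pos (by norm_num : (0 : ℝ) < 2)]
    have h2 := abs_add_le (tree M (fun k => (a + δ) + δ * (k : ℝ)) 1 - (a + δ)) δ
    have h3 : (1 / 2 : ℝ) ^ M * |a + δ| ≤ (1 / 2) ^ M * |a| + |δ| := by
      have h4 := abs_add_le a δ
      have h5 : (0 : ℝ) < (1 / 2) ^ M := by positivity
      have h6 : (1 / 2 : ℝ) ^ M ≤ 1 := pow_le_one₀ (by norm_num) (by norm_num)
      have h7 : (1 / 2 : ℝ) ^ M * |a + δ| ≤ (1 / 2) ^ M * (|a| + |δ|) :=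
        mul_le_mul_of_nonneg_left h4 h5.le
      have h8 : (1 / 2 : ℝ) ^ M * |δ| ≤ 1 * |δ| := mul_le_mul_of_nonneg_right h6 (abs_nonneg _)
      linarith
    have h9 : (1 / 2 : ℝ) ^ (M + 1) * |a| = (1 / 2) ^ M * |a| / 2 := by
      rw [pow_succ]
      ring
    rw [h9]
    linarith

lemma wt_lin_aux (M : ℕ) (a δ S : ℝ) (h : ∀ k : ℕ, k < M → |a + δ * (k : ℝ)| ≤ S) :
    wt M (fun k => a + δ * (k : ℝ)) 1 ≤ (1 - (1 / 2) ^ M) * S + 2 * M * |δ| := by
  induction M generalizing a with
  | zero =>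
    unfold wt
    simp
  | succ M ih =>
    rw [wt_one, shift_lin]
    have h1 := ih (a + δ) fun k hk => by
      have := h (k + 1) (by omega)
      push_cast at this
      rwa [show a + δ + δ * (k : ℝ) = a + δ * ((k : ℝ) + 1) by ring]
    have h2 := tree_lin M (a + δ) δ
    have h3 : |a + δ * ((0 : ℕ) : ℝ) - tree M (fun k => (a + δ) + δ * (k : ℝ)) 1| ≤
        (1 / 2) ^ M * S + 4 * |δ| := by
      have e1 : a + δ * ((0 : ℕ) : ℝ) - tree M (fun k => (a + δ) + δ * (k : ℝ)) 1 =
          -(tree M (fun k => (a + δ) + δ * (k : ℝ)) 1 - (a + δ)) + -δ := by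
        push_cast
        ring
      rw [e1]
      have h4 := abs_add_le (-(tree M (fun k => (a + δ) + δ * (k : ℝ)) 1 - (a + δ))) (-δ)
      rw [abs_neg, abs_neg] at h4
      have h5 : (0 : ℝ) < (1 / 2) ^ M := by positivity
      have h6 : (1 / 2 : ℝ) ^ M ≤ 1 := pow_le_one₀ (by norm_num) (by norm_num)
      have h0 : |a| ≤ S := by
        have := h 0 (by omega)
        simpa using this
      have h7 : (1 / 2 : ℝ) ^ M * |a + δ| ≤ (1 / 2) ^ M * (S + |δ|) :=
        mul_le_mul_of_nonneg_left ((abs_add_le a δ).trans (by linarith)) h5.le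
      have h8 : (1 / 2 : ℝ) ^ M * |δ| ≤ 1 * |δ| := mul_le_mul_of_nonneg_right h6 (abs_nonneg _)
      linarith
    have h9 : (1 - (1 / 2 : ℝ) ^ (M + 1)) * S = (1 - (1 / 2) ^ M) * S + (1 / 2) ^ M * S / 2 := by
      rw [pow_succ]
      ring
    rw [h9]
    push_cast
    linarith

theorem wt_lin (B : ℝ) (hB : 0 < B) : ∃ C : ℝ, 0 < C ∧ ∀ M : ℕ, 1 ≤ M →
    wt M (fun k => B * (4 * k / M - 1)) 1 ≤ C := by
  refine ⟨11 * B, by positivity, fun M hM => ?_⟩
  have hM' : (0 : ℝ) < M := by exact_mod_cast hM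
  have e1 : (fun k : ℕ => B * (4 * (k : ℝ) / M - 1)) = fun k : ℕ => -B + (4 * B / M) * (k : ℝ) := by
    funext k
    ring
  rw [e1]
  have h1 := wt_lin_aux M (-B) (4 * B / M) (3 * B) fun k hk => by
    have hk' : (k : ℝ) ≤ M := by exact_mod_cast hk.le
    have h2 : 4 * B / M * (k : ℝ) ≤ 4 * B := by
      rw [div_mul_eq_mul_div, div_le_iff₀ hM']
      exact mul_le_mul_of_nonneg_left hk' (by positivity)
    have h3 : 0 ≤ 4 * B / M * (k : ℝ) := by positivity
    rw [abs_le]
    constructor <;> linarith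
  have h2 : 2 * (M : ℝ) * |4 * B / M| = 8 * B := by
    rw [abs_of_pos (by positivity)]
    field_simp
    ring
  rw [h2] at h1
  have h3 : (1 - (1 / 2 : ℝ) ^ M) * (3 * B) ≤ 1 * (3 * B) := by
    refine mul_le_mul_of_nonneg_right ?_ (by positivity)
    have : (0 : ℝ) < (1 / 2) ^ M := by positivity
    linarith
  linarith

end Pool.Agent.J4.H41.KB
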