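import Mathlib
import Pool.Agent.R251.Nec.Geo

/-! Project KB (helper41), piece P3: the volume of the union of the boxes, by slicing. -/

set_option autoImplicit false

namespace Pool.Agent.J4.H41.KB

open MeasureTheory Set
open Pool.Agent.H810R3.Tub (Space Vec box nor)

/-- the coordinates of the points of a box -/
lemma box_coord {d : ℕ} (G : ℝ → ℝ) {N : ℝ} (hN : 1 ≤ N) {ω : Vec d} (hω : ‖ω‖ ≤ 1) {f : Fin d → Space d}
    (hf : Orthonormal ℝ (Fin.cons (nor ω) f : Fin (d + 1) → Space d)) {y : Space d}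
    (hy : y ∈ box N (nor ω) f (WithLp.toLp 2 (WithLp.toLp 2 (fun j => N ^ 2 * G ((ω j + 1) / 2)), (0 : ℝ)))) :
    |y.snd| ≤ (1 + d) * N ^ 2 ∧ ∀ j, ∃ u ∈ Icc (0 : ℝ) 1,
      |(y.fst j - 2 * y.snd) / N ^ 2 - (G u - 4 * y.snd / N ^ 2 * u)| ≤ 3 * d / (2 * N) := by
  have hN0 : 0 < N := by linarith
  obtain ⟨h1, h2⟩ := Pool.Agent.R251.Nec.geo hN hω hf hy
  refine ⟨h1, fun j => ?_⟩
  have hωj : |ω j| ≤ 1 := by
    have := PiLp.norm_apply_le ω j
    rw [Real.norm_eq_abs] at this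
    exact this.trans hω
  obtain ⟨h3, h4⟩ := abs_le.1 hωj
  refine ⟨(ω j + 1) / 2, ⟨by linarith, by linarith⟩, ?_⟩
  have h5 : |y.fst j - N ^ 2 * G ((ω j + 1) / 2) + 2 * y.snd * ω j| ≤ 3 * d * N / 2 := by
    have := PiLp.norm_apply_le (y.fst - (WithLp.toLp 2 (fun j => N ^ 2 * G ((ω j + 1) / 2)) : Vec d) +
      (2 * y.snd) • ω) j
    rw [Real.norm_eq_abs] at this
    exact this.trans h2
  have e : (y.fst j - 2 * y.snd) / N ^ 2 - (G ((ω j + 1) / 2) - 4 * y.snd / N ^ 2 * ((ω j + 1) / 2)) =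
      (y.fst j - N ^ 2 * G ((ω j + 1) / 2) + 2 * y.snd * ω j) / N ^ 2 := by
    field_simp
    ring
  rw [e, abs_div, abs_of_pos (by positivity : (0 : ℝ) < N ^ 2), div_le_iff₀ (by positivity)]
  refine h5.trans (le_of_eq ?_)
  field_simp

/-- the slices are small -/
theorem union_vol (d : ℕ) (hd : 1 ≤ d) (G : ℝ → ℝ) (N s : ℝ) (hN : 1 ≤ N) (hs : 0 ≤ s)
    (hG : ∀ t : ℝ, |t| ≤ 4 * (1 + d) →
      volume {p : ℝ | ∃ u ∈ Icc (0 : ℝ) 1, |p - (G u - t * u)| ≤ 3 * d / (2 * N)} ≤ ENNReal.ofReal s)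
    (ι : Type) [Fintype ι] (ω : ι → Vec d) (f : ι → Fin d → Space d) (hω : ∀ i, ‖ω i‖ ≤ 1)
    (hf : ∀ i, Orthonormal ℝ (Fin.cons (nor (ω i)) (f i) : Fin (d + 1) → Space d)) :
    volume (⋃ i, box N (nor (ω i)) (f i)
      (WithLp.toLp 2 (WithLp.toLp 2 (fun j => N ^ 2 * G ((ω i j + 1) / 2)), (0 : ℝ)))) ≤
      ENNReal.ofReal (2 * (1 + d) * N ^ (2 * d + 2) * s ^ d) := by
  have hN0 : 0 < N := by linarith
  obtain ⟨U, hU⟩ : ∃ U : Set (Space d), U = ⋃ i, box N (nor (ω i)) (f i)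
      (WithLp.toLp 2 (WithLp.toLp 2 (fun j => N ^ 2 * G ((ω i j + 1) / 2)), (0 : ℝ))) := ⟨_, rfl⟩
  rw [← hU]
  have hUc : IsClosed U := by
    rw [hU]
    exact isClosed_iUnion_of_finite fun i => Pool.Agent.H810R3.Tub.box_closed _ _ _ _
  have hUin : ∀ y ∈ U, |y.snd| ≤ (1 + d) * N ^ 2 ∧ ∀ j, ∃ u ∈ Icc (0 : ℝ) 1,
      |(y.fst j - 2 * y.snd) / N ^ 2 - (G u - 4 * y.snd / N ^ 2 * u)| ≤ 3 * d / (2 * N) := by
    intro y hy
    rw [hU, mem_iUnion] at hy
    obtain ⟨i, hi⟩ := hy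
    exact box_coord G hN (hω i) (hf i) hi
  obtain ⟨S, hS⟩ : ∃ S : ℝ, S = (1 + d) * N ^ 2 := ⟨_, rfl⟩
  have hS0 : 0 < S := by rw [hS]; positivity
  rw [← hS] at hUin
  have hslice : ∀ t : ℝ, |t| ≤ S →
      volume {x : ℝ | ∃ u ∈ Icc (0 : ℝ) 1,
        |(x - 2 * t) / N ^ 2 - (G u - 4 * t / N ^ 2 * u)| ≤ 3 * d / (2 * N)} ≤
        ENNReal.ofReal (N ^ 2 * s) := by
    intro t ht
    have h1 : {x : ℝ | ∃ u ∈ Icc (0 : ℝ) 1,
        |(x - 2 * t) / N ^ 2 - (G u - 4 * t / N ^ 2 * u)| ≤ 3 * d / (2 * N)} =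
        (fun x => x + (-(2 * t))) ⁻¹' (((N ^ 2)⁻¹ * ·) ⁻¹' {p : ℝ | ∃ u ∈ Icc (0 : ℝ) 1,
          |p - (G u - 4 * t / N ^ 2 * u)| ≤ 3 * d / (2 * N)}) := by
      ext x
      simp only [mem_ofPred_eq, mem_preimage]
      have : (N ^ 2)⁻¹ * (x + -(2 * t)) = (x - 2 * t) / N ^ 2 := by
        rw [← sub_eq_add_neg, inv_mul_eq_div]
      rw [this]
    rw [h1, measure_preimage_add_right, Real.volume_preimage_mul_left (inv_ne_zero (by positivity)), inv_inv,
      abs_of_pos (by positivity : (0 : ℝ) < N ^ 2), ENNReal.ofReal_mul (by positivity)]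
    gcongr
    apply hG
    rw [abs_div, abs_of_pos (by positivity : (0 : ℝ) < N ^ 2), div_le_iff₀ (by positivity), abs_mul]
    have h4 : |(4 : ℝ)| = 4 := by norm_num
    rw [h4]
    rw [hS] at ht
    linarith
  have hmp := WithLp.volume_preserving_toLp (Vec d) ℝ
  rw [← hmp.measure_preimage hUc.measurableSet.nullMeasurableSet]
  have hm : MeasurableSet ((WithLp.toLp 2) ⁻¹' U : Set (Vec d × ℝ)) :=
    hmp.measurable hUc.measurableSet
  rw [Measure.volume_eq_prod, Measure.prod_apply_symm hm]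
  calc ∫⁻ t : ℝ, volume ((fun x : Vec d => (x, t)) ⁻¹' ((WithLp.toLp 2) ⁻¹' U))
      ≤ ∫⁻ t : ℝ, (Icc (-S) S).indicator (fun _ => ENNReal.ofReal (N ^ 2 * s) ^ d) t := by
        apply lintegral_mono
        intro t
        simp only
        by_cases ht : t ∈ Icc (-S) S
        · rw [indicator_of_mem ht]
          have hT : MeasurableSet ((fun x : Vec d => (x, t)) ⁻¹' ((WithLp.toLp 2) ⁻¹' U)) :=
            (measurable_prodMk_right (y := t)) hm
          have h3 := (PiLp.volume_preserving_toLp (Fin d)).measure_preimage hT.nullMeasurableSet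
          rw [← h3]
          refine (measure_mono (t := Set.pi univ (fun _ : Fin d =>
            {x : ℝ | ∃ u ∈ Icc (0 : ℝ) 1,
              |(x - 2 * t) / N ^ 2 - (G u - 4 * t / N ^ 2 * u)| ≤ 3 * d / (2 * N)})) ?_).trans ?_
          · intro x hx j _
            exact (hUin _ hx).2 j
          · rw [volume_pi_pi]
            simp only [Finset.prod_const, Finset.card_univ, Fintype.card_fin]
            gcongr
            exact hslice t (abs_le.2 ht)
        · rw [indicator_of_notMem ht]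
          have h6 : (fun x : Vec d => (x, t)) ⁻¹' ((WithLp.toLp 2) ⁻¹' U) = ∅ := by
            rw [eq_empty_iff_forall_notMem]
            intro x hx
            exact ht (abs_le.1 (hUin _ hx).1)
          rw [h6]
          simp
    _ = ENNReal.ofReal (N ^ 2 * s) ^ d * ENNReal.ofReal (2 * S) := by
        rw [lintegral_indicator measurableSet_Icc, lintegral_const, Measure.restrict_apply_univ,
          Real.volume_Icc]
        congr 2
        ring
    _ = _ := by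
        rw [← ENNReal.ofReal_pow (by positivity), ← ENNReal.ofReal_mul (by positivity)]
        congr 1
        rw [hS, mul_pow, ← pow_mul]
        ring

end Pool.Agent.J4.H41.KB
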