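import Pool.Agent.R251.Nec.Low

/-!
# The variation of the family
-/

set_option autoImplicit false

namespace Pool.Agent.J4.H41.KB

open MeasureTheory Set
open Pool.Agent.H810R3.Tub (Space Vec box nor)

namespace P4

/-- telescoping -/
theorem tele (f : ℤ → ℝ) {W : ℝ} (h0 : ∀ n, 0 ≤ f n) (hW : ∀ n, f n ≤ W) (M K : ℕ) :
    ∑ k ∈ Finset.range M, (f ((k : ℤ) + 1 + K) - f ((k : ℤ) - K)) ≤ (2 * K + 1) * W := by
  have h1 : ∀ k : ℕ, f ((k : ℤ) + 1 + K) - f ((k : ℤ) - K) =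
      ∑ m ∈ Finset.range (2 * K + 1), (f (((k + 1 : ℕ) : ℤ) - K + m) - f ((k : ℤ) - K + m)) := by
    intro k
    have h2 := Finset.sum_range_sub (fun m : ℕ => f ((k : ℤ) - K + m)) (2 * K + 1)
    rw [show (k : ℤ) - K + ((2 * K + 1 : ℕ) : ℤ) = (k : ℤ) + 1 + K by push_cast; ring,
      show (k : ℤ) - K + ((0 : ℕ) : ℤ) = (k : ℤ) - K by simp] at h2
    rw [← h2]
    refine Finset.sum_congr rfl fun m _ => ?_
    congr 2
    push_cast
    ring
  rw [Finset.sum_congr rfl fun k _ => h1 k, Finset.sum_comm]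
  have h3 : ∀ m ∈ Finset.range (2 * K + 1), ∑ k ∈ Finset.range M,
      (f (((k + 1 : ℕ) : ℤ) - K + m) - f ((k : ℤ) - K + m)) ≤ W := by
    intro m _
    rw [Finset.sum_range_sub (fun k : ℕ => f ((k : ℤ) - K + m)) M]
    linarith [h0 (((0 : ℕ) : ℤ) - K + m), hW ((M : ℤ) - K + m)]
  refine (Finset.sum_le_sum h3).trans (le_of_eq ?_)
  rw [Finset.sum_const, Finset.card_range, nsmul_eq_mul]
  push_cast
  ring

theorem norm_le_sum {d : ℕ} (x : Vec d) : ‖x‖ ≤ ∑ m, |x m| := by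
  have h1 : 0 ≤ ∑ m, |x m| := Finset.sum_nonneg fun m _ => abs_nonneg _
  apply le_of_sq_le_sq _ h1
  rw [EuclideanSpace.norm_sq_eq]
  calc ∑ i, ‖x i‖ ^ 2 = ∑ i, |x i| * |x i| :=
        Finset.sum_congr rfl fun i _ => by rw [Real.norm_eq_abs, pow_two]
    _ ≤ ∑ i, |x i| * ∑ m, |x m| := by
        refine Finset.sum_le_sum fun i _ => mul_le_mul_of_nonneg_left ?_ (abs_nonneg _)
        exact Finset.single_le_sum (f := fun m => |x m|) (fun m _ => abs_nonneg _)
          (Finset.mem_univ i)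
    _ = (∑ m, |x m|) ^ 2 := by rw [← Finset.sum_mul, pow_two]

theorem abs_le_norm {d : ℕ} (x : Vec d) (l : Fin d) : |x l| ≤ ‖x‖ := by
  have := PiLp.norm_apply_le x l
  rwa [Real.norm_eq_abs] at this

theorem norm_diff {d : ℕ} (a b : Fin d → ℝ) :
    ‖(WithLp.toLp 2 (WithLp.toLp 2 a, (0 : ℝ)) : Space d) -
      WithLp.toLp 2 (WithLp.toLp 2 b, (0 : ℝ))‖ ≤ ∑ l, |a l - b l| := by
  set x : Space d := (WithLp.toLp 2 (WithLp.toLp 2 a, (0 : ℝ)) : Space d) -
      WithLp.toLp 2 (WithLp.toLp 2 b, (0 : ℝ)) with hx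
  have h1 := Pool.Agent.H810R3.Tub.norm_space_sq x
  have h2 : x.snd = 0 := by
    rw [hx, WithLp.sub_snd]
    simp
  have h3 : x.fst = WithLp.toLp 2 (fun l => a l - b l) := by
    rw [hx, WithLp.sub_fst]
    rfl
  have h4 : ‖x‖ = ‖x.fst‖ := by
    rw [h2] at h1
    have : ‖x‖ ^ 2 = ‖x.fst‖ ^ 2 := by rw [h1]; ring
    exact (sq_eq_sq₀ (norm_nonneg _) (norm_nonneg _)).1 this
  rw [h4, h3]
  exact norm_le_sum _

/-- the number of points in a slab -/
theorem slab {d : ℕ} {σ N : ℝ} (hσ : 0 < σ) (hN : 1 ≤ N) {ι : Type} (ω : ι → Vec d)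
    (hω : ∀ i, ‖ω i‖ ≤ 1) (hsep : ∀ i j, i ≠ j → σ / N ≤ ‖ω i - ω j‖) (l : Fin d) (k : ℕ)
    (I : Finset ι) (hI : ∀ i ∈ I, ⌊(ω i l + 1) / 2 * N⌋₊ = k) :
    (I.card : ℝ) ≤ (2 * (d + 1) / σ + 3) ^ d * N ^ (d - 1) := by
  classical
  have hN0 : 0 < N := by linarith
  set Q : ℝ := N * (d + 1) / σ with hQ
  have hQ0 : 0 < Q := by positivity
  set z : ι → Fin d → ℤ := fun i m => ⌊ω i m * Q⌋ with hz
  have hinj : Function.Injective z := by
    intro i j hij
    by_contra hne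
    have h1 := hsep i j hne
    have h2 : ∀ m, |(ω i - ω j) m| ≤ σ / (N * (d + 1)) := by
      intro m
      have h3 : ⌊ω i m * Q⌋ = ⌊ω j m * Q⌋ := congrFun hij m
      have h4 := Int.abs_sub_lt_one_of_floor_eq_floor h3
      rw [← sub_mul, abs_mul, abs_of_pos hQ0] at h4
      have h5 : |ω i m - ω j m| ≤ 1 / Q := by
        rw [le_div_iff₀ hQ0]
        exact h4.le
      have h6 : 1 / Q = σ / (N * (d + 1)) := by
        rw [hQ, one_div_div]
      rw [h6] at h5
      exact h5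
    have h3 := norm_le_sum (ω i - ω j)
    have h4 : ∑ m, |(ω i - ω j) m| ≤ d * (σ / (N * (d + 1))) := by
      refine (Finset.sum_le_sum fun m _ => h2 m).trans (le_of_eq ?_)
      rw [Finset.sum_const, Finset.card_univ, Fintype.card_fin, nsmul_eq_mul]
    have h5 : d * (σ / (N * (d + 1))) < σ / N := by
      have hd : (0 : ℝ) < d + 1 := by positivity
      have e : σ / N = (d + 1) * (σ / (N * (d + 1))) := by
        field_simp
      rw [e]
      have : 0 < σ / (N * (d + 1)) := by positivity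
      nlinarith
    linarith
  set P : ℕ := ⌈Q⌉₊ with hP
  set c : ℝ := (2 * k / N - 1) * Q with hc
  set T : Fin d → Finset ℤ := fun m =>
    if m = l then Finset.Icc ⌊c⌋ ⌊c + 2 * (d + 1) / σ⌋ else Finset.Icc (-(P : ℤ)) P with hT
  have hmem : I.image z ⊆ Fintype.piFinset T := by
    intro y hy
    obtain ⟨i, hi, rfl⟩ := Finset.mem_image.1 hy
    rw [Fintype.mem_piFinset]
    intro m
    by_cases hm : m = l
    · subst hm
      simp only [hT, if_true]
      have h1 := hI i hi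
      have hu : 0 ≤ (ω i m + 1) / 2 * N := by
        have := (abs_le.1 ((abs_le_norm (ω i) m).trans (hω i))).1
        have h2 : 0 ≤ (ω i m + 1) / 2 := by linarith
        positivity
      obtain ⟨h2, h3⟩ := (Nat.floor_eq_iff hu).1 h1
      have h4 : 2 * k / N - 1 ≤ ω i m := by
        rw [sub_le_iff_le_add, div_le_iff₀ hN0]
        linarith
      have h5 : ω i m ≤ (2 * k / N - 1) + 2 / N := by
        have : 2 * k / N - 1 + 2 / N = (2 * (k + 1)) / N - 1 := by ring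
        rw [this, le_sub_iff_add_le, le_div_iff₀ hN0]
        linarith
      rw [Finset.mem_Icc]
      constructor
      · exact Int.floor_le_floor (mul_le_mul_of_nonneg_right h4 hQ0.le)
      · apply Int.floor_le_floor
        have h6 := mul_le_mul_of_nonneg_right h5 hQ0.le
        refine h6.trans (le_of_eq ?_)
        rw [add_mul, hc, hQ]
        field_simp
    · simp only [hT, if_neg hm, Finset.mem_Icc]
      have h1 := abs_le.1 ((abs_le_norm (ω i) m).trans (hω i))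
      have hPQ : Q ≤ P := Nat.le_ceil Q
      constructor
      · rw [hz]
        simp only
        rw [Int.le_floor]
        push_cast
        nlinarith [h1.1]
      · rw [hz]
        simp only
        have h2 : ω i m * Q ≤ P := by nlinarith [h1.2]
        have h3 : (⌊ω i m * Q⌋ : ℝ) ≤ P := (Int.floor_le _).trans h2
        exact_mod_cast h3
  have hcard : I.card ≤ ∏ m, (T m).card := by
    rw [← Finset.card_image_of_injective I hinj, ← Fintype.card_piFinset]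
    exact Finset.card_le_card hmem
  have hTl : ((T l).card : ℝ) ≤ 2 * (d + 1) / σ + 3 := by
    simp only [hT, if_true, Int.card_Icc]
    have h1 : (0 : ℝ) < 2 * (d + 1) / σ := by positivity
    have h2 : ⌊c⌋ ≤ ⌊c + 2 * (d + 1) / σ⌋ := Int.floor_le_floor (by linarith)
    have h3 : (((⌊c + 2 * (d + 1) / σ⌋ + 1 - ⌊c⌋).toNat : ℤ) : ℝ) =
        (⌊c + 2 * (d + 1) / σ⌋ : ℝ) + 1 - ⌊c⌋ := by
      rw [Int.toNat_of_nonneg (by omega)]
      push_cast
      ring
    have h4 : (((⌊c + 2 * (d + 1) / σ⌋ + 1 - ⌊c⌋).toNat : ℕ) : ℝ) =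
        (((⌊c + 2 * (d + 1) / σ⌋ + 1 - ⌊c⌋).toNat : ℤ) : ℝ) := by norm_cast
    rw [h4, h3]
    have h5 := Int.floor_le (c + 2 * (d + 1) / σ)
    have h6 := Int.lt_floor_add_one c
    linarith
  have hTm : ∀ m ∈ Finset.univ.erase l, ((T m).card : ℝ) ≤ (2 * (d + 1) / σ + 3) * N := by
    intro m hm
    have hm' : m ≠ l := (Finset.mem_erase.1 hm).1
    simp only [hT, if_neg hm', Int.card_Icc]
    have h3 : (((P : ℤ) + 1 - -(P : ℤ)).toNat : ℕ) = 2 * P + 1 := by omega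
    rw [h3]
    push_cast
    have h4 : (P : ℝ) ≤ Q + 1 := (Nat.ceil_lt_add_one hQ0.le).le
    have h5 : 2 * Q = 2 * (d + 1) / σ * N := by rw [hQ]; field_simp
    nlinarith
  have hfin : (I.card : ℝ) ≤ ∏ m, ((T m).card : ℝ) := by exact_mod_cast hcard
  rw [← Finset.mul_prod_erase Finset.univ _ (Finset.mem_univ l)] at hfin
  have hprod : ∏ m ∈ Finset.univ.erase l, ((T m).card : ℝ) ≤
      ((2 * (d + 1) / σ + 3) * N) ^ (d - 1) := by
    refine (Finset.prod_le_prod (fun m _ => Nat.cast_nonneg _) hTm).trans (le_of_eq ?_)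
    rw [Finset.prod_const, Finset.card_erase_of_mem (Finset.mem_univ l), Finset.card_univ,
      Fintype.card_fin]
  refine hfin.trans ?_
  have hd1 : d = (d - 1) + 1 := by have := l.pos; omega
  have h7 : (0 : ℝ) ≤ 2 * (d + 1) / σ + 3 := by positivity
  calc ((T l).card : ℝ) * ∏ m ∈ Finset.univ.erase l, ((T m).card : ℝ)
      ≤ (2 * (d + 1) / σ + 3) * ((2 * (d + 1) / σ + 3) * N) ^ (d - 1) :=
        mul_le_mul hTl hprod (Finset.prod_nonneg fun m _ => Nat.cast_nonneg _) h7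
    _ = (2 * (d + 1) / σ + 3) ^ (d - 1 + 1) * N ^ (d - 1) := by
        rw [mul_pow]; ring
    _ = (2 * (d + 1) / σ + 3) ^ d * N ^ (d - 1) := by rw [← hd1]

end P4

open P4 in
theorem fam_var (d : ℕ) (hd : 1 ≤ d) (σ K W : ℝ) (hσ : 0 < σ) (hK : 0 < K) (hW : 0 < W) :
    ∃ A : ℝ, 0 < A ∧ ∀ (G w : ℝ → ℝ), w 0 = 0 → w 1 ≤ W →
      (∀ u v, 0 ≤ u → u ≤ v → v ≤ 1 → |G v - G u| ≤ w v - w u) →
      ∀ N : ℝ, 1 ≤ N → ∀ (ι : Type) [Fintype ι] (ω : ι → Vec d), (∀ i, ‖ω i‖ ≤ 1) →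
      (∀ i j, i ≠ j → σ / N ≤ ‖ω i - ω j‖) →
      ∑ i, ∑ j, (if ‖ω i - ω j‖ ≤ K / N then
        ‖(WithLp.toLp 2 (WithLp.toLp 2 (fun l => N ^ 2 * G ((ω i l + 1) / 2)), (0 : ℝ)) : Space d) -
          WithLp.toLp 2 (WithLp.toLp 2 (fun l => N ^ 2 * G ((ω j l + 1) / 2)), (0 : ℝ))‖ else 0) ≤
        A * N ^ (d + 1) := by
  classical
  set C1 : ℝ := (2 * K / σ + 2) ^ d with hC1
  set C2 : ℝ := (2 * (d + 1) / σ + 3) ^ d with hC2
  set K' : ℕ := ⌈K⌉₊ with hK'
  have hd0 : (0 : ℝ) < d := by exact_mod_cast hd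
  refine ⟨d * C1 * C2 * ((2 * K' + 1) * W), by positivity, ?_⟩
  intro G w hw0 hw1 hG N hN ι _ ω hω hsep
  have hN0 : 0 < N := by linarith
  have hmono : ∀ u v, 0 ≤ u → u ≤ v → v ≤ 1 → w u ≤ w v := by
    intro u v h1 h2 h3
    have := (abs_nonneg _).trans (hG u v h1 h2 h3)
    linarith
  set e : ℝ → ℝ := fun x => w (max 0 (min 1 x)) with he
  have hcl : ∀ x : ℝ, 0 ≤ max 0 (min 1 x) ∧ max 0 (min 1 x) ≤ 1 := fun x =>
    ⟨le_max_left _ _, max_le zero_le_one (min_le_left _ _)⟩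
  have he0 : ∀ x, 0 ≤ e x := by
    intro x
    have := hmono 0 _ le_rfl (hcl x).1 (hcl x).2
    rw [hw0] at this
    exact this
  have heW : ∀ x, e x ≤ W := fun x => (hmono _ 1 (hcl x).1 (hcl x).2 le_rfl).trans hw1
  have hem : ∀ x y, x ≤ y → e x ≤ e y := by
    intro x y hxy
    exact hmono _ _ (hcl x).1 (max_le_max le_rfl (min_le_min le_rfl hxy)) (hcl y).2
  have hee : ∀ x, 0 ≤ x → x ≤ 1 → e x = w x := by
    intro x h0 h1
    simp only [he]
    rw [min_eq_right h1, max_eq_right h0]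
  have hGw : ∀ u v, 0 ≤ u → u ≤ 1 → 0 ≤ v → v ≤ 1 → |G u - G v| ≤ |w u - w v| := by
    intro u v hu0 hu1 hv0 hv1
    rcases le_total u v with h | h
    · rw [abs_sub_comm, abs_sub_comm (w u)]
      exact (hG u v hu0 h hv1).trans (le_abs_self _)
    · exact (hG v u hv0 h hu1).trans (le_abs_self _)
  set f : ℤ → ℝ := fun n => e (n / N) with hf
  set kf : ι → Fin d → ℕ := fun i l => ⌊(ω i l + 1) / 2 * N⌋₊ with hkf
  set D : ℕ → ℝ := fun k => f ((k : ℤ) + 1 + K') - f ((k : ℤ) - K') with hD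
  have hD0 : ∀ k, 0 ≤ D k := by
    intro k
    simp only [hD, hf]
    rw [sub_nonneg]
    apply hem
    push_cast
    gcongr
    have : (0 : ℝ) ≤ K' := Nat.cast_nonneg _
    linarith
  have hu : ∀ i l, 0 ≤ (ω i l + 1) / 2 ∧ (ω i l + 1) / 2 ≤ 1 := by
    intro i l
    have h1 := abs_le.1 ((abs_le_norm (ω i) l).trans (hω i))
    constructor <;> linarith [h1.1, h1.2]
  have hKK : K ≤ K' := Nat.le_ceil K
  -- the basic estimate
  have hbas : ∀ i j l, ‖ω i - ω j‖ ≤ K / N →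
      |G ((ω i l + 1) / 2) - G ((ω j l + 1) / 2)| ≤ D (kf i l) := by
    intro i j l hij
    obtain ⟨hi0, hi1⟩ := hu i l
    obtain ⟨hj0, hj1⟩ := hu j l
    refine (hGw _ _ hi0 hi1 hj0 hj1).trans ?_
    have h1 : |ω i l - ω j l| ≤ K / N := (abs_le_norm (ω i - ω j) l).trans hij
    have h2 : K / N ≤ K' / N := by gcongr
    have h3 := abs_le.1 (h1.trans h2)
    have hn : 0 ≤ (ω i l + 1) / 2 * N := by positivity
    obtain ⟨h4, h5⟩ := (Nat.floor_eq_iff hn).1 (rfl : ⌊(ω i l + 1) / 2 * N⌋₊ = kf i l)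
    have h6 : (kf i l : ℝ) / N ≤ (ω i l + 1) / 2 := by
      rw [div_le_iff₀ hN0]; exact h4
    have h7 : (ω i l + 1) / 2 ≤ ((kf i l : ℝ) + 1) / N := by
      rw [le_div_iff₀ hN0]; exact h5.le
    have hKN : (0 : ℝ) ≤ K' / N := by positivity
    have e1 : (((kf i l : ℤ) + 1 + K' : ℤ) : ℝ) / N = ((kf i l : ℝ) + 1) / N + K' / N := by
      push_cast
      ring
    have e2 : (((kf i l : ℤ) - K' : ℤ) : ℝ) / N = (kf i l : ℝ) / N - K' / N := by
      push_cast
      ring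
    have g : ∀ x, (kf i l : ℝ) / N - K' / N ≤ x → x ≤ ((kf i l : ℝ) + 1) / N + K' / N →
        f ((kf i l : ℤ) - K') ≤ e x ∧ e x ≤ f ((kf i l : ℤ) + 1 + K') := by
      intro x hx1 hx2
      simp only [hf]
      rw [e1, e2]
      exact ⟨hem _ _ hx1, hem _ _ hx2⟩
    obtain ⟨g1, g2⟩ := g ((ω i l + 1) / 2) (by linarith) (by linarith)
    obtain ⟨g3, g4⟩ := g ((ω j l + 1) / 2) (by linarith [h3.1, h3.2]) (by linarith [h3.1, h3.2])
    rw [hee _ hi0 hi1] at g1 g2
    rw [hee _ hj0 hj1] at g3 g4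
    rw [abs_le]
    simp only [hD]
    constructor <;> linarith
  -- one summand
  have hterm : ∀ i j, (if ‖ω i - ω j‖ ≤ K / N then
        ‖(WithLp.toLp 2 (WithLp.toLp 2 (fun l => N ^ 2 * G ((ω i l + 1) / 2)), (0 : ℝ)) : Space d) -
          WithLp.toLp 2 (WithLp.toLp 2 (fun l => N ^ 2 * G ((ω j l + 1) / 2)), (0 : ℝ))‖ else 0) ≤
      if ‖ω i - ω j‖ ≤ K / N then N ^ 2 * ∑ l, D (kf i l) else 0 := by
    intro i j
    split_ifs with hij
    · refine (norm_diff _ _).trans ?_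
      rw [Finset.mul_sum]
      refine Finset.sum_le_sum fun l _ => ?_
      rw [← mul_sub, abs_mul, abs_of_nonneg (by positivity : (0 : ℝ) ≤ N ^ 2)]
      exact mul_le_mul_of_nonneg_left (hbas i j l hij) (by positivity)
    · exact le_rfl
  have hnb : ∀ i, ((Finset.univ.filter fun j => ‖ω i - ω j‖ ≤ K / N).card : ℝ) ≤ C1 := by
    intro i
    have h1 := Pool.Agent.R251.Nec.pack (s := σ / N) (ρ := K / N) (by positivity) (by positivity)
      ω hsep (ω i) (Finset.univ.filter fun j => ‖ω i - ω j‖ ≤ K / N) (by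
        intro j hj
        rw [norm_sub_rev]
        exact (Finset.mem_filter.1 hj).2)
    refine h1.trans (le_of_eq ?_)
    rw [hC1]
    congr 2
    field_simp
  have hrow : ∀ i, ∑ j, (if ‖ω i - ω j‖ ≤ K / N then
        ‖(WithLp.toLp 2 (WithLp.toLp 2 (fun l => N ^ 2 * G ((ω i l + 1) / 2)), (0 : ℝ)) : Space d) -
          WithLp.toLp 2 (WithLp.toLp 2 (fun l => N ^ 2 * G ((ω j l + 1) / 2)), (0 : ℝ))‖ else 0) ≤
      C1 * (N ^ 2 * ∑ l, D (kf i l)) := by
    intro i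
    refine (Finset.sum_le_sum fun j _ => hterm i j).trans ?_
    rw [← Finset.sum_filter, Finset.sum_const, nsmul_eq_mul]
    refine mul_le_mul_of_nonneg_right (hnb i) ?_
    have : 0 ≤ ∑ l, D (kf i l) := Finset.sum_nonneg fun l _ => hD0 _
    positivity
  have hl : ∀ l, ∑ i, D (kf i l) ≤ C2 * N ^ (d - 1) * ((2 * K' + 1) * W) := by
    intro l
    have hmt : ∀ i ∈ (Finset.univ : Finset ι), kf i l ∈ Finset.range (⌊N⌋₊ + 1) := by
      intro i _
      rw [Finset.mem_range, Nat.lt_succ_iff]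
      apply Nat.floor_le_floor
      have := hu i l
      nlinarith [this.2]
    rw [← Finset.sum_fiberwise_of_maps_to hmt]
    have h1 : ∀ k ∈ Finset.range (⌊N⌋₊ + 1), ∑ i ∈ Finset.univ.filter (fun i => kf i l = k),
        D (kf i l) ≤ C2 * N ^ (d - 1) * D k := by
      intro k _
      have h2 : ∑ i ∈ Finset.univ.filter (fun i => kf i l = k), D (kf i l) =
          ((Finset.univ.filter (fun i => kf i l = k)).card : ℝ) * D k := by
        rw [← nsmul_eq_mul, ← Finset.sum_const]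
        refine Finset.sum_congr rfl fun i hi => ?_
        rw [(Finset.mem_filter.1 hi).2]
      rw [h2]
      refine mul_le_mul_of_nonneg_right ?_ (hD0 k)
      exact slab hσ hN ω hω hsep l k _ fun i hi => (Finset.mem_filter.1 hi).2
    refine (Finset.sum_le_sum h1).trans ?_
    rw [← Finset.mul_sum]
    refine mul_le_mul_of_nonneg_left ?_ (by positivity)
    exact tele f (fun n => he0 _) (fun n => heW _) _ _
  refine (Finset.sum_le_sum fun i _ => hrow i).trans ?_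
  rw [← Finset.mul_sum, ← Finset.mul_sum, Finset.sum_comm]
  have h8 : ∑ l, ∑ i, D (kf i l) ≤ d * (C2 * N ^ (d - 1) * ((2 * K' + 1) * W)) := by
    refine (Finset.sum_le_sum fun l _ => hl l).trans (le_of_eq ?_)
    rw [Finset.sum_const, Finset.card_univ, Fintype.card_fin, nsmul_eq_mul]
  have hC1p : 0 ≤ C1 := by positivity
  calc C1 * (N ^ 2 * ∑ l, ∑ i, D (kf i l))
      ≤ C1 * (N ^ 2 * (d * (C2 * N ^ (d - 1) * ((2 * K' + 1) * W)))) := by gcongr
    _ = d * C1 * C2 * ((2 * K' + 1) * W) * (N ^ 2 * N ^ (d - 1)) := by ring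
    _ = d * C1 * C2 * ((2 * K' + 1) * W) * N ^ (d + 1) := by
        rw [← pow_add]
        congr 2
        omega

end Pool.Agent.J4.H41.KB
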