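import Pool.Agent.J4.H41.KB.Defs

/-!
# The discrete Poincaré inequality and the pointwise Lipschitz estimate
-/

set_option autoImplicit false

namespace Pool.Agent.J4.H41.KB

open Set

variable {d : ℕ}

theorem mem_cube {x z : Fin d → ℤ} {r : ℕ} : z ∈ cube x r ↔ ∀ k, |z k - x k| ≤ r := by
  unfold cube
  rw [Fintype.mem_piFinset]
  refine forall_congr' fun k => ?_
  rw [Finset.mem_Icc, abs_le]
  constructor
  · rintro ⟨h1, h2⟩
    constructor <;> linarith
  · rintro ⟨h1, h2⟩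
    constructor <;> linarith

theorem card_cube (x : Fin d → ℤ) (r : ℕ) : (cube x r).card = (2 * r + 1) ^ d := by
  unfold cube
  rw [Fintype.card_piFinset]
  have h : ∀ k : Fin d, (Finset.Icc (x k - r) (x k + r)).card = 2 * r + 1 := by
    intro k
    rw [Int.card_Icc]
    omega
  rw [Finset.prod_congr rfl (fun k _ => h k), Finset.prod_const, Finset.card_univ, Fintype.card_fin]

theorem cube_mono {x : Fin d → ℤ} {r s : ℕ} (h : r ≤ s) : cube x r ⊆ cube x s := by
  intro z hz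
  rw [mem_cube] at hz ⊢
  intro k
  exact (hz k).trans (by exact_mod_cast h)

variable {E : Type} [NormedAddCommGroup E] (F : (Fin d → ℤ) → E)

theorem grad_nonneg (x : Fin d → ℤ) : 0 ≤ grad F x := Finset.sum_nonneg fun _ _ => norm_nonneg _

theorem step_le (x : Fin d → ℤ) (k : Fin d) : ‖F (x + Pi.single k 1) - F x‖ ≤ grad F x :=
  Finset.single_le_sum (f := fun k => ‖F (x + Pi.single k 1) - F x‖) (fun _ _ => norm_nonneg _)
    (Finset.mem_univ k)

/-- the sum over the shifted cube -/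
theorem sum_shift_le {x : Fin d → ℤ} {r : ℕ} (h : Fin d → ℤ) (hh : ∀ k, |h k| ≤ 2 * r) :
    ∑ z ∈ cube x r, grad F (z + h) ≤ ∑ y ∈ cube x (3 * r), grad F y := by
  classical
  have e : ∑ z ∈ cube x r, grad F (z + h) = ∑ y ∈ (cube x r).image (fun z => z + h), grad F y := by
    rw [Finset.sum_image]
    intro z _ z' _ hz
    exact add_right_cancel hz
  rw [e]
  refine Finset.sum_le_sum_of_subset_of_nonneg ?_ (fun y _ _ => grad_nonneg F y)
  intro y hy
  obtain ⟨z, hz, rfl⟩ := Finset.mem_image.1 hy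
  rw [mem_cube] at hz ⊢
  intro k
  have h1 := hz k
  have h2 := hh k
  rw [Pi.add_apply]
  rw [abs_le] at h1 h2 ⊢
  push_cast
  constructor <;> linarith

theorem shift (x : Fin d → ℤ) (r : ℕ) : ∀ (n : ℕ) (h : Fin d → ℤ), (∑ k, |h k|) = n →
    (∀ k, |h k| ≤ 2 * r) →
    ∑ z ∈ cube x r, ‖F (z + h) - F z‖ ≤ n * ∑ y ∈ cube x (3 * r), grad F y := by
  classical
  intro n
  induction n with
  | zero =>
    intro h hs _
    have h0 : h = 0 := by
      funext k
      have h1 : ∑ k, |h k| = 0 := by rw [hs]; rfl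
      rw [Finset.sum_eq_zero_iff_of_nonneg (fun _ _ => abs_nonneg _)] at h1
      exact abs_eq_zero.1 (h1 k (Finset.mem_univ k))
    rw [h0]
    simp
  | succ n ih =>
    intro h hs hh
    obtain ⟨k, hk⟩ : ∃ k, h k ≠ 0 := by
      by_contra hcon
      push Not at hcon
      have : ∑ k, |h k| = 0 := Finset.sum_eq_zero fun k _ => by rw [hcon k, abs_zero]
      rw [this] at hs
      push_cast at hs
      linarith [(Nat.cast_nonneg n : (0 : ℤ) ≤ n)]
    obtain ⟨s, hs1, hs2⟩ : ∃ s : ℤ, (s = 1 ∨ s = -1) ∧ |h k - s| = |h k| - 1 := by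
      rcases lt_or_gt_of_ne hk with h1 | h1
      · refine ⟨-1, Or.inr rfl, ?_⟩
        rw [abs_of_neg h1, abs_of_nonpos (by omega)]
        omega
      · refine ⟨1, Or.inl rfl, ?_⟩
        rw [abs_of_pos h1, abs_of_nonneg (by omega)]
    obtain ⟨h', hh'⟩ : ∃ h' : Fin d → ℤ, h' = h - Pi.single k s := ⟨_, rfl⟩
    have hk' : h' k = h k - s := by rw [hh']; simp
    have hne : ∀ l, l ≠ k → h' l = h l := by
      intro l hl
      rw [hh', Pi.sub_apply, Pi.single_eq_of_ne hl, sub_zero]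
    have hsum : ∑ l, |h' l| = n := by
      rw [← Finset.add_sum_erase _ _ (Finset.mem_univ k)] at hs ⊢
      have e : ∑ l ∈ Finset.univ.erase k, |h' l| = ∑ l ∈ Finset.univ.erase k, |h l| :=
        Finset.sum_congr rfl fun l hl => by rw [hne l (Finset.ne_of_mem_erase hl)]
      rw [e, hk', hs2]
      push_cast at hs
      linarith
    have hb' : ∀ l, |h' l| ≤ 2 * r := by
      intro l
      by_cases hl : l = k
      · rw [hl, hk', hs2]
        have := hh k
        linarith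
      · rw [hne l hl]
        exact hh l
    have hi := ih h' hsum hb'
    have hstep : ∑ z ∈ cube x r, ‖F (z + h) - F (z + h')‖ ≤ ∑ y ∈ cube x (3 * r), grad F y := by
      rcases hs1 with hs1 | hs1
      · refine le_trans (Finset.sum_le_sum fun z _ => ?_) (sum_shift_le F h' hb')
        have e : z + h = z + h' + Pi.single k 1 := by
          rw [hh', hs1]; abel
        rw [e]
        exact step_le F _ k
      · refine le_trans (Finset.sum_le_sum fun z _ => ?_) (sum_shift_le F h hh)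
        have e : z + h' = z + h + Pi.single k 1 := by
          rw [hh', hs1, Pi.single_neg]; abel
        rw [e, norm_sub_rev]
        exact step_le F _ k
    calc ∑ z ∈ cube x r, ‖F (z + h) - F z‖
        ≤ ∑ z ∈ cube x r, (‖F (z + h) - F (z + h')‖ + ‖F (z + h') - F z‖) :=
          Finset.sum_le_sum fun z _ => norm_sub_le_norm_sub_add_norm_sub _ _ _
      _ = ∑ z ∈ cube x r, ‖F (z + h) - F (z + h')‖ + ∑ z ∈ cube x r, ‖F (z + h') - F z‖ :=
          Finset.sum_add_distrib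
      _ ≤ ∑ y ∈ cube x (3 * r), grad F y + n * ∑ y ∈ cube x (3 * r), grad F y := add_le_add hstep hi
      _ = _ := by push_cast; ring

/-- the Poincaré inequality -/
theorem poincare (x : Fin d → ℤ) (r : ℕ) :
    ∑ z' ∈ cube x r, ∑ z ∈ cube x r, ‖F z' - F z‖ ≤
      (4 * r + 1) ^ d * (2 * r * d) * ∑ y ∈ cube x (3 * r), grad F y := by
  classical
  have hΓ : 0 ≤ ∑ y ∈ cube x (3 * r), grad F y := Finset.sum_nonneg fun y _ => grad_nonneg F y
  have h1 : ∀ z ∈ cube x r, ∑ z' ∈ cube x r, ‖F z' - F z‖ ≤ ∑ h ∈ cube 0 (2 * r), ‖F (z + h) - F z‖ := by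
    intro z hz
    have e : ∑ z' ∈ cube x r, ‖F z' - F z‖ =
        ∑ h ∈ (cube x r).image (fun z' => z' - z), ‖F (z + h) - F z‖ := by
      rw [Finset.sum_image]
      · refine Finset.sum_congr rfl fun z' _ => ?_
        rw [add_sub_cancel]
      · intro a _ b _ hab
        exact sub_left_injective hab
    rw [e]
    refine Finset.sum_le_sum_of_subset_of_nonneg ?_ (fun _ _ _ => norm_nonneg _)
    intro h hh
    obtain ⟨z', hz', rfl⟩ := Finset.mem_image.1 hh
    rw [mem_cube] at hz hz' ⊢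
    intro k
    have h1 := abs_le.1 (hz k)
    have h2 := abs_le.1 (hz' k)
    rw [Pi.sub_apply, Pi.zero_apply, sub_zero, abs_le]
    push_cast
    constructor <;> linarith
  calc ∑ z' ∈ cube x r, ∑ z ∈ cube x r, ‖F z' - F z‖
      = ∑ z ∈ cube x r, ∑ z' ∈ cube x r, ‖F z' - F z‖ := Finset.sum_comm
    _ ≤ ∑ z ∈ cube x r, ∑ h ∈ cube 0 (2 * r), ‖F (z + h) - F z‖ := Finset.sum_le_sum h1
    _ = ∑ h ∈ cube 0 (2 * r), ∑ z ∈ cube x r, ‖F (z + h) - F z‖ := Finset.sum_comm
    _ ≤ ∑ h ∈ cube (0 : Fin d → ℤ) (2 * r), (2 * r * d) * ∑ y ∈ cube x (3 * r), grad F y := by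
        refine Finset.sum_le_sum fun h hh => ?_
        rw [mem_cube] at hh
        have hb : ∀ k, |h k| ≤ 2 * r := by
          intro k
          have := hh k
          rw [Pi.zero_apply, sub_zero] at this
          exact_mod_cast this
        obtain ⟨n, hn⟩ := Int.eq_ofNat_of_zero_le (Finset.sum_nonneg fun k _ => abs_nonneg (h k) :
          0 ≤ ∑ k, |h k|)
        refine (shift F x r n h hn hb).trans ?_
        refine mul_le_mul_of_nonneg_right ?_ hΓ
        have h2 : (n : ℤ) ≤ 2 * r * d := by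
          rw [← hn]
          calc ∑ k, |h k| ≤ ∑ _k : Fin d, (2 * r : ℤ) := Finset.sum_le_sum fun k _ => hb k
            _ = 2 * r * d := by
              rw [Finset.sum_const, Finset.card_univ, Fintype.card_fin, nsmul_eq_mul]
              ring
        exact_mod_cast h2
    _ = _ := by
        rw [Finset.sum_const, card_cube, nsmul_eq_mul]
        push_cast
        ring

/-- the mean oscillation around a good point -/
theorem mean_osc {l : ℝ} (hl : 0 ≤ l) {x : Fin d → ℤ} {ρ : ℕ}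
    (hx : ∀ r : ℕ, 1 ≤ r → r ≤ ρ → ∑ z ∈ cube x (3 * r), grad F z ≤ l * (2 * r + 1) ^ d) :
    ∀ r : ℕ, r ≤ ρ → ∑ z ∈ cube x r, ‖F x - F z‖ ≤ (2 * r + 1) ^ d * (4 * d * 5 ^ d * l * r) := by
  classical
  intro r
  induction r using Nat.strong_induction_on with
  | _ r ih =>
    intro hr
    rcases Nat.eq_zero_or_pos r with h0 | h0
    · have e : cube x 0 = {x} := by
        ext z
        rw [mem_cube, Finset.mem_singleton]
        constructor
        · intro h
          funext k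
          have := h k
          rw [Nat.cast_zero, abs_nonpos_iff] at this
          linarith
        · rintro rfl k
          simp
      rw [h0, e]
      simp
    · obtain ⟨q, hq⟩ : ∃ q : ℕ, q = r / 2 := ⟨_, rfl⟩
      have hqr : q < r := by omega
      have hq2 : 2 * q ≤ r := by omega
      have hq3 : r ≤ 2 * q + 1 := by omega
      have hi := ih q hqr (by omega)
      have hP := (poincare F x r).trans (mul_le_mul_of_nonneg_left (hx r h0 hr) (by positivity))
      -- averaging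
      have h1 : (2 * q + 1 : ℝ) ^ d * ∑ z ∈ cube x r, ‖F x - F z‖ ≤
          (2 * r + 1 : ℝ) ^ d * ∑ z' ∈ cube x q, ‖F x - F z'‖ +
            ∑ z' ∈ cube x r, ∑ z ∈ cube x r, ‖F z' - F z‖ := by
        have e1 : (2 * q + 1 : ℝ) ^ d * ∑ z ∈ cube x r, ‖F x - F z‖ =
            ∑ z' ∈ cube x q, ∑ z ∈ cube x r, ‖F x - F z‖ := by
          rw [Finset.sum_const, card_cube, nsmul_eq_mul]
          push_cast
          ring
        have e2 : (2 * r + 1 : ℝ) ^ d * ∑ z' ∈ cube x q, ‖F x - F z'‖ =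
            ∑ z' ∈ cube x q, ∑ z ∈ cube x r, ‖F x - F z'‖ := by
          rw [Finset.mul_sum]
          refine Finset.sum_congr rfl fun z' _ => ?_
          rw [Finset.sum_const, card_cube, nsmul_eq_mul]
          push_cast
          ring
        rw [e1, e2]
        calc ∑ z' ∈ cube x q, ∑ z ∈ cube x r, ‖F x - F z‖
            ≤ ∑ z' ∈ cube x q, ∑ z ∈ cube x r, (‖F x - F z'‖ + ‖F z' - F z‖) :=
              Finset.sum_le_sum fun z' _ => Finset.sum_le_sum fun z _ =>
                norm_sub_le_norm_sub_add_norm_sub _ _ _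
          _ = ∑ z' ∈ cube x q, ∑ z ∈ cube x r, ‖F x - F z'‖ +
                ∑ z' ∈ cube x q, ∑ z ∈ cube x r, ‖F z' - F z‖ := by
              rw [← Finset.sum_add_distrib]
              refine Finset.sum_congr rfl fun z' _ => ?_
              rw [Finset.sum_add_distrib]
          _ ≤ _ := by
              refine add_le_add le_rfl ?_
              exact Finset.sum_le_sum_of_subset_of_nonneg (cube_mono hqr.le)
                (fun _ _ _ => Finset.sum_nonneg fun _ _ => norm_nonneg _)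
      have hq0 : (0 : ℝ) < (2 * q + 1) ^ d := by positivity
      have hr0 : (0 : ℝ) < (2 * r + 1) ^ d := by positivity
      have hqR : (2 : ℝ) * q ≤ r := by exact_mod_cast hq2
      have hqR' : (r : ℝ) ≤ 2 * q + 1 := by exact_mod_cast hq3
      have hr1 : (1 : ℝ) ≤ r := by exact_mod_cast h0
      have h2 : (4 * r + 1 : ℝ) ^ d ≤ 5 ^ d * (2 * q + 1) ^ d := by
        rw [← mul_pow]
        refine pow_le_pow_left₀ (by positivity) ?_ d
        linarith
      have h3 : (2 * r + 1 : ℝ) ^ d * ∑ z' ∈ cube x q, ‖F x - F z'‖ ≤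
          (2 * r + 1) ^ d * ((2 * q + 1) ^ d * (4 * d * 5 ^ d * l * (r / 2))) := by
        refine mul_le_mul_of_nonneg_left (hi.trans ?_) hr0.le
        refine mul_le_mul_of_nonneg_left ?_ hq0.le
        refine mul_le_mul_of_nonneg_left ?_ (by positivity)
        linarith
      have h4 : (4 * r + 1 : ℝ) ^ d * (2 * r * d) * (l * (2 * r + 1) ^ d) ≤
          (2 * r + 1) ^ d * ((2 * q + 1) ^ d * (4 * d * 5 ^ d * l * (r / 2))) := by
        have := mul_le_mul_of_nonneg_right h2 (show 0 ≤ 2 * r * d * (l * (2 * r + 1) ^ d) by positivity)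
        calc (4 * r + 1 : ℝ) ^ d * (2 * r * d) * (l * (2 * r + 1) ^ d)
            = (4 * r + 1 : ℝ) ^ d * (2 * r * d * (l * (2 * r + 1) ^ d)) := by ring
          _ ≤ 5 ^ d * (2 * q + 1) ^ d * (2 * r * d * (l * (2 * r + 1) ^ d)) := this
          _ = _ := by ring
      have h5 : (2 * q + 1 : ℝ) ^ d * ∑ z ∈ cube x r, ‖F x - F z‖ ≤
          (2 * q + 1) ^ d * ((2 * r + 1) ^ d * (4 * d * 5 ^ d * l * r)) := by
        refine h1.trans ((add_le_add h3 (hP.trans h4)).trans (le_of_eq ?_))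
        ring
      exact le_of_mul_le_mul_left h5 hq0

theorem lusin_pair {l : ℝ}
    (hl : 0 ≤ l) {x y : Fin d → ℤ} {ρ : ℕ} (hρ : 1 ≤ ρ) (hxy : ∀ k, |x k - y k| ≤ ρ)
    (hx : ∀ r : ℕ, 1 ≤ r → r ≤ 2 * ρ → ∑ z ∈ cube x (3 * r), grad F z ≤ l * (2 * r + 1) ^ d)
    (hy : ∀ r : ℕ, 1 ≤ r → r ≤ 2 * ρ → ∑ z ∈ cube y (3 * r), grad F z ≤ l * (2 * r + 1) ^ d) :
    ‖F x - F y‖ ≤ 12 * d * 10 ^ d * l * ρ := by
  classical
  have h1 := mean_osc F hl hx (2 * ρ) le_rfl
  have h2 := mean_osc F hl hy ρ (by omega)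
  have hρ1 : (1 : ℝ) ≤ ρ := by exact_mod_cast hρ
  have h3 : (2 * ρ + 1 : ℝ) ^ d * ‖F x - F y‖ ≤
      ∑ z ∈ cube x (2 * ρ), ‖F x - F z‖ + ∑ z ∈ cube y ρ, ‖F y - F z‖ := by
    have e1 : (2 * ρ + 1 : ℝ) ^ d * ‖F x - F y‖ = ∑ z ∈ cube y ρ, ‖F x - F y‖ := by
      rw [Finset.sum_const, card_cube, nsmul_eq_mul]
      push_cast
      ring
    rw [e1]
    calc ∑ z ∈ cube y ρ, ‖F x - F y‖ ≤ ∑ z ∈ cube y ρ, (‖F x - F z‖ + ‖F y - F z‖) := by
          refine Finset.sum_le_sum fun z _ => ?_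
          rw [norm_sub_rev (F y) (F z)]
          exact norm_sub_le_norm_sub_add_norm_sub _ _ _
      _ = ∑ z ∈ cube y ρ, ‖F x - F z‖ + ∑ z ∈ cube y ρ, ‖F y - F z‖ := Finset.sum_add_distrib
      _ ≤ _ := by
          refine add_le_add ?_ le_rfl
          refine Finset.sum_le_sum_of_subset_of_nonneg ?_ (fun _ _ _ => norm_nonneg _)
          intro z hz
          rw [mem_cube] at hz ⊢
          intro k
          have h4 := abs_le.1 (hz k)
          have h5 := abs_le.1 (hxy k)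
          rw [abs_le]
          push_cast
          constructor <;> linarith
  have hr0 : (0 : ℝ) < (2 * ρ + 1) ^ d := by positivity
  have h4 : (2 * ((2 * ρ : ℕ) : ℝ) + 1) ^ d ≤ 2 ^ d * (2 * ρ + 1) ^ d := by
    rw [← mul_pow]
    refine pow_le_pow_left₀ (by positivity) ?_ d
    push_cast
    linarith
  have h5 : (1 : ℝ) ≤ 2 ^ d := one_le_pow₀ (by norm_num)
  have h6 : (2 * ((2 * ρ : ℕ) : ℝ) + 1) ^ d * (4 * d * 5 ^ d * l * ((2 * ρ : ℕ) : ℝ)) ≤
      (2 * ρ + 1) ^ d * (8 * d * 10 ^ d * l * ρ) := by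
    have e : (10 : ℝ) ^ d = 2 ^ d * 5 ^ d := by rw [← mul_pow]; norm_num
    calc (2 * ((2 * ρ : ℕ) : ℝ) + 1) ^ d * (4 * d * 5 ^ d * l * ((2 * ρ : ℕ) : ℝ))
        ≤ 2 ^ d * (2 * ρ + 1) ^ d * (4 * d * 5 ^ d * l * ((2 * ρ : ℕ) : ℝ)) :=
          mul_le_mul_of_nonneg_right h4 (by positivity)
      _ = _ := by rw [e]; push_cast; ring
  have h7 : (2 * ρ + 1 : ℝ) ^ d * (4 * d * 5 ^ d * l * ρ) ≤ (2 * ρ + 1) ^ d * (4 * d * 10 ^ d * l * ρ) := by
    refine mul_le_mul_of_nonneg_left ?_ hr0.le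
    have : (5 : ℝ) ^ d ≤ 10 ^ d := pow_le_pow_left₀ (by norm_num) (by norm_num) d
    gcongr
  have h8 : (2 * ρ + 1 : ℝ) ^ d * ‖F x - F y‖ ≤ (2 * ρ + 1) ^ d * (12 * d * 10 ^ d * l * ρ) := by
    refine h3.trans ((add_le_add (h1.trans h6) (h2.trans h7)).trans (le_of_eq ?_))
    ring
  exact le_of_mul_le_mul_left h8 hr0

end Pool.Agent.J4.H41.KB
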