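import Pool.Agent.J4.H41.KB.P1
import Pool.Agent.J4.H41.KB.P2
import Pool.Agent.J4.H41.KB.P3
import Pool.Agent.J4.H41.KB.P4

/-!
# Choices of bounded variation with a logarithmic loss
-/

set_option autoImplicit false

namespace Pool.Agent.J4.H41.KB

open MeasureTheory Set
open Pool.Agent.H810R3.Tub (Space Vec box nor)

theorem sharp (d : ℕ) (hd : 1 ≤ d) (σ κ K : ℝ) (hσ : 0 < σ) (hκ : 0 < κ) (hK : 0 < K) :
    ∃ A C : ℝ, 0 < A ∧ 0 < C ∧ ∀ N : ℝ, 2 ≤ N → ∀ (ι : Type) [Fintype ι] (ω : ι → Vec d)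
      (f : ι → Fin d → Space d), (∀ i, ‖ω i‖ ≤ 1) →
      (∀ i j, i ≠ j → σ / N ≤ ‖ω i - ω j‖) → κ * N ^ d ≤ (Fintype.card ι : ℝ) →
      (∀ i, Orthonormal ℝ (Fin.cons (nor (ω i)) (f i) : Fin (d + 1) → Space d)) →
      ∃ a : ι → Space d,
        ∑ i, ∑ j, (if ‖ω i - ω j‖ ≤ K / N then ‖a i - a j‖ else 0) ≤ A * N ^ (d + 1) ∧
        volume (⋃ i, box N (nor (ω i)) (f i) (a i)) ≤
          ENNReal.ofReal (C / Real.log N ^ d) * ∑ i, volume (box N (nor (ω i)) (f i) (a i)) := by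
  classical
  have hd0 : (0 : ℝ) < d := by exact_mod_cast hd
  have hd1 : (1 : ℝ) ≤ d := by exact_mod_cast hd
  obtain ⟨B, hBd⟩ : ∃ B : ℝ, B = 4 * (1 + d) := ⟨_, rfl⟩
  have hB : 0 < B := by rw [hBd]; positivity
  obtain ⟨C₁, hC₁, hsl⟩ := slice_lin B hB
  obtain ⟨C₂, hC₂, hwt⟩ := wt_lin B hB
  obtain ⟨A, hA, hfam⟩ := fam_var d hd σ K C₂ hσ hK hC₂
  obtain ⟨N₁, hN₁d⟩ : ∃ N₁ : ℝ, N₁ = Real.exp 4 * (2 * d) ^ 2 := ⟨_, rfl⟩
  have hN₁1 : 1 < N₁ := by
    rw [hN₁d]
    have h1 : 1 < Real.exp 4 := Real.one_lt_exp_iff.2 (by norm_num)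
    nlinarith
  have hL1 : 0 < Real.log N₁ := Real.log_pos hN₁1
  refine ⟨A, 2 * (1 + d) * (8 * C₁) ^ d / κ + Real.log N₁ ^ d, hA, by positivity, ?_⟩
  intro N hN ι _ ω f hω hsep hcard hf
  have hN0 : 0 < N := by linarith
  have hN1 : 1 ≤ N := by linarith
  have hL : 0 < Real.log N := Real.log_pos (by linarith)
  have hvol : ∀ a : ι → Space d, ∑ i, volume (box N (nor (ω i)) (f i) (a i)) =
      ENNReal.ofReal ((Fintype.card ι : ℝ) * N ^ (d + 2)) := by
    intro a
    rw [Finset.sum_congr rfl (fun i _ => Pool.Agent.H810R3.Tub.vol_box hN1 (hf i) (a i)),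
      Finset.sum_const, Finset.card_univ, nsmul_eq_mul, ENNReal.ofReal_mul (Nat.cast_nonneg _),
      ENNReal.ofReal_natCast]
  by_cases hbig : N₁ ≤ N
  · -- the Perron tree
    obtain ⟨M, hM⟩ : ∃ M : ℕ, M = ⌊Real.log N / 4⌋₊ := ⟨_, rfl⟩
    have hl4 : 4 ≤ Real.log N := by
      have h1 : Real.exp 4 ≤ N := by
        refine le_trans ?_ hbig
        rw [hN₁d]
        have h2 : (1 : ℝ) ≤ (2 * d) ^ 2 := by nlinarith
        have h3 := Real.exp_pos 4
        nlinarith
      have h2 := Real.log_le_log (Real.exp_pos 4) h1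
      rwa [Real.log_exp] at h2
    have hMle : (M : ℝ) ≤ Real.log N / 4 := by rw [hM]; exact Nat.floor_le (by positivity)
    have hMlt : Real.log N / 4 < M + 1 := by rw [hM]; exact Nat.lt_floor_add_one _
    have hM1 : 1 ≤ M := by
      rw [hM]
      exact Nat.le_floor (by push_cast; linarith)
    have hM1' : (1 : ℝ) ≤ M := by exact_mod_cast hM1
    have hM8 : Real.log N / 8 ≤ M := by linarith
    have h4M : (4 : ℝ) ^ M ≤ Real.sqrt N := by
      have h1 : (4 : ℝ) ^ M = Real.exp (M * Real.log 4) := by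
        rw [Real.exp_nat_mul, Real.exp_log (by norm_num)]
      have h2 : Real.sqrt N = Real.exp (Real.log N / 2) := by
        rw [Real.exp_half, Real.exp_log hN0]
      rw [h1, h2]
      apply Real.exp_le_exp.2
      have h3 : Real.log 4 ≤ 2 := by
        have h4 : Real.log 4 = 2 * Real.log 2 := by
          rw [show (4 : ℝ) = 2 ^ 2 by norm_num, Real.log_pow]
          norm_num
        have h5 := Real.log_two_lt_d9
        linarith
      have h4 : (M : ℝ) * Real.log 4 ≤ M * 2 := mul_le_mul_of_nonneg_left h3 (Nat.cast_nonneg _)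
      linarith
    have hρ : 3 * d / (2 * N) * 4 ^ M ≤ 1 := by
      have hsq : Real.sqrt N * Real.sqrt N = N := Real.mul_self_sqrt hN0.le
      have hs0 : 0 < Real.sqrt N := Real.sqrt_pos.2 hN0
      have h1 : 2 * (d : ℝ) ≤ Real.sqrt N := by
        apply Real.le_sqrt_of_sq_le
        refine le_trans ?_ hbig
        rw [hN₁d]
        have h2 : 1 ≤ Real.exp 4 := Real.one_le_exp (by norm_num)
        have h3 : (0 : ℝ) ≤ (2 * d) ^ 2 := by positivity
        nlinarith
      rw [div_mul_eq_mul_div, div_le_one (by positivity)]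
      calc 3 * d * 4 ^ M ≤ 3 * d * Real.sqrt N := by gcongr
        _ ≤ 2 * (Real.sqrt N * Real.sqrt N) := by nlinarith
        _ = 2 * N := by rw [hsq]
    obtain ⟨G, hG⟩ : ∃ G : ℝ → ℝ, G = tree M (fun k => B * (4 * k / M - 1)) := ⟨_, rfl⟩
    obtain ⟨w, hw⟩ : ∃ w : ℝ → ℝ, w = wt M (fun k => B * (4 * k / M - 1)) := ⟨_, rfl⟩
    refine ⟨fun i => WithLp.toLp 2 (WithLp.toLp 2 (fun l => N ^ 2 * G ((ω i l + 1) / 2)), (0 : ℝ)),
      ?_, ?_⟩
    · refine hfam G w ?_ ?_ ?_ N hN1 ι ω hω hsep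
      · rw [hw]
        exact (tree_wt M _).1
      · rw [hw]
        exact hwt M hM1
      · rw [hw, hG]
        exact (tree_wt M _).2
    · rw [hvol]
      have h1 := union_vol d hd G N (C₁ / M) hN1 (by positivity) (by
        intro t ht
        rw [hG]
        exact hsl M hM1 t (3 * d / (2 * N)) (by rw [hBd]; exact ht) (by positivity) hρ) ι ω f hω hf
      refine h1.trans ?_
      rw [← ENNReal.ofReal_mul (by positivity)]
      apply ENNReal.ofReal_le_ofReal
      have h2 : C₁ / M ≤ 8 * C₁ / Real.log N := by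
        rw [div_le_div_iff₀ (by linarith) hL]
        nlinarith
      have h3 : (C₁ / M) ^ d ≤ (8 * C₁) ^ d / Real.log N ^ d := by
        rw [← div_pow]
        exact pow_le_pow_left₀ (by positivity) h2 d
      have h4 : κ * N ^ (2 * d + 2) ≤ (Fintype.card ι : ℝ) * N ^ (d + 2) := by
        have h5 := mul_le_mul_of_nonneg_right hcard (show 0 ≤ N ^ (d + 2) by positivity)
        have h6 : κ * N ^ d * N ^ (d + 2) = κ * N ^ (2 * d + 2) := by ring
        rw [h6] at h5
        exact h5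
      have hX : 0 ≤ Real.log N₁ ^ d / Real.log N ^ d * ((Fintype.card ι : ℝ) * N ^ (d + 2)) := by
        positivity
      calc 2 * (1 + (d : ℝ)) * N ^ (2 * d + 2) * (C₁ / M) ^ d
          ≤ 2 * (1 + d) * N ^ (2 * d + 2) * ((8 * C₁) ^ d / Real.log N ^ d) := by gcongr
        _ = 2 * (1 + d) * (8 * C₁) ^ d / κ / Real.log N ^ d * (κ * N ^ (2 * d + 2)) := by
            field_simp
        _ ≤ 2 * (1 + d) * (8 * C₁) ^ d / κ / Real.log N ^ d *
              ((Fintype.card ι : ℝ) * N ^ (d + 2)) := by gcongr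
        _ ≤ _ := by
            rw [add_div, add_mul]
            linarith
  · -- `N` is bounded
    push Not at hbig
    refine ⟨fun _ => 0, ?_, ?_⟩
    · have h1 : ∑ i : ι, ∑ j : ι, (if ‖ω i - ω j‖ ≤ K / N then ‖(0 : Space d) - 0‖ else 0) = 0 := by
        refine Finset.sum_eq_zero fun i _ => Finset.sum_eq_zero fun j _ => ?_
        rw [sub_zero, norm_zero, ite_self]
      rw [h1]
      positivity
    · have h1 : (1 : ENNReal) ≤
          ENNReal.ofReal ((2 * (1 + d) * (8 * C₁) ^ d / κ + Real.log N₁ ^ d) / Real.log N ^ d) := by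
        rw [← ENNReal.ofReal_one]
        apply ENNReal.ofReal_le_ofReal
        rw [one_le_div (by positivity)]
        have h2 : Real.log N ≤ Real.log N₁ := Real.log_le_log hN0 hbig.le
        have h3 : Real.log N ^ d ≤ Real.log N₁ ^ d := pow_le_pow_left₀ hL.le h2 d
        have h4 : 0 ≤ 2 * (1 + d) * (8 * C₁) ^ d / κ := by positivity
        linarith
      refine (measure_iUnion_fintype_le _ _).trans ?_
      exact le_mul_of_one_le_left' h1

end Pool.Agent.J4.H41.KB
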