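import Pool.Agent.J4.H41.KB.Defs

/-!
# A discrete maximal inequality (weak type (1,1))
-/

set_option autoImplicit false

namespace Pool.Agent.J4.H41.KB

open MeasureTheory Set

namespace WT

theorem mem_cube {d : ℕ} {x y : Fin d → ℤ} {r : ℕ} :
    y ∈ cube x r ↔ ∀ k, x k - r ≤ y k ∧ y k ≤ x k + r := by
  simp only [cube, Fintype.mem_piFinset, Finset.mem_Icc]

theorem self_mem {d : ℕ} (x : Fin d → ℤ) (r : ℕ) : x ∈ cube x r :=
  mem_cube.mpr fun k => ⟨by linarith [Int.natCast_nonneg r], by linarith [Int.natCast_nonneg r]⟩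

theorem card_cube {d : ℕ} (x : Fin d → ℤ) (r : ℕ) : (cube x r).card = (2 * r + 1) ^ d := by
  rw [cube, Fintype.card_piFinset]
  have h : ∀ k : Fin d, (Finset.Icc (x k - r) (x k + r)).card = 2 * r + 1 := by
    intro k
    rw [Int.card_Icc]
    omega
  simp [h]

/-- Vitali -/
theorem vitali {d : ℕ} (r : (Fin d → ℤ) → ℕ) (B : Finset (Fin d → ℤ)) :
    ∃ u : Finset (Fin d → ℤ), u ⊆ B ∧
      (∀ x ∈ u, ∀ y ∈ u, x ≠ y → Disjoint (cube x (3 * r x)) (cube y (3 * r y))) ∧
      ∀ x ∈ B, ∃ b ∈ u, x ∈ cube b (6 * r b) := by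
  classical
  induction B using Finset.strongInduction with
  | H B ih =>
    rcases B.eq_empty_or_nonempty with rfl | hne
    · exact ⟨∅, Finset.Subset.refl _, by simp, by simp⟩
    obtain ⟨b, hb, hmax⟩ := B.exists_max_image r hne
    set B' := B.filter fun x => Disjoint (cube x (3 * r x)) (cube b (3 * r b)) with hB'
    have hbB' : b ∉ B' := by
      intro h
      have h1 := (Finset.mem_filter.mp h).2
      exact Finset.disjoint_left.mp h1 (self_mem b _) (self_mem b _)
    have hss : B' ⊂ B := by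
      refine (Finset.ssubset_iff_of_subset (Finset.filter_subset _ _)).mpr ⟨b, hb, hbB'⟩
    obtain ⟨u, hu, hd, hc⟩ := ih B' hss
    refine ⟨insert b u, ?_, ?_, ?_⟩
    · intro x hx
      rcases Finset.mem_insert.mp hx with rfl | hx
      · exact hb
      · exact (Finset.mem_filter.mp (hu hx)).1
    · intro x hx y hy hxy
      rcases Finset.mem_insert.mp hx with h1 | h1
      · rcases Finset.mem_insert.mp hy with h2 | h2
        · exact absurd (h1.trans h2.symm) hxy
        · rw [h1]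
          exact ((Finset.mem_filter.mp (hu h2)).2).symm
      · rcases Finset.mem_insert.mp hy with h2 | h2
        · rw [h2]
          exact (Finset.mem_filter.mp (hu h1)).2
        · exact hd x h1 y h2 hxy
    · intro x hx
      by_cases h : x ∈ B'
      · obtain ⟨c, hc1, hc2⟩ := hc x h
        exact ⟨c, Finset.mem_insert_of_mem hc1, hc2⟩
      · have h1 : ¬ Disjoint (cube x (3 * r x)) (cube b (3 * r b)) := fun h2 =>
          h (Finset.mem_filter.mpr ⟨hx, h2⟩)
        obtain ⟨z, hz1, hz2⟩ := Finset.not_disjoint_iff.mp h1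
        refine ⟨b, Finset.mem_insert_self _ _, mem_cube.mpr fun k => ?_⟩
        have h3 := mem_cube.mp hz1 k
        have h4 := mem_cube.mp hz2 k
        have h5 : r x ≤ r b := hmax x hx
        push_cast at h3 h4 ⊢
        omega

end WT

open WT in
theorem weak {d : ℕ} (g : (Fin d → ℤ) → ℝ) (hg : ∀ x, 0 ≤ g x) (Q : Finset (Fin d → ℤ)) {l : ℝ}
    (hl : 0 < l) (B : Finset (Fin d → ℤ))
    (hB : ∀ x ∈ B, ∃ r : ℕ, 1 ≤ r ∧ cube x (3 * r) ⊆ Q ∧
      l * (2 * r + 1) ^ d < ∑ y ∈ cube x (3 * r), g y) :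
    l * B.card ≤ 15 ^ d * ∑ y ∈ Q, g y := by
  classical
  choose! r hr1 hrQ hrl using hB
  obtain ⟨u, hu, hd, hc⟩ := vitali r B
  have hQ0 : 0 ≤ ∑ y ∈ Q, g y := Finset.sum_nonneg fun y _ => hg y
  have h1 : B.card ≤ ∑ b ∈ u, (12 * r b + 1) ^ d := by
    calc B.card ≤ (u.biUnion fun b => cube b (6 * r b)).card := by
          refine Finset.card_le_card fun x hx => ?_
          obtain ⟨b, hb1, hb2⟩ := hc x hx
          exact Finset.mem_biUnion.mpr ⟨b, hb1, hb2⟩
      _ ≤ ∑ b ∈ u, (cube b (6 * r b)).card := Finset.card_biUnion_le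
      _ = ∑ b ∈ u, (12 * r b + 1) ^ d := by
          refine Finset.sum_congr rfl fun b _ => ?_
          rw [card_cube]
          ring
  have h2 : ∑ b ∈ u, ∑ y ∈ cube b (3 * r b), g y ≤ ∑ y ∈ Q, g y := by
    rw [← Finset.sum_biUnion]
    · refine Finset.sum_le_sum_of_subset_of_nonneg ?_ fun y _ _ => hg y
      intro y hy
      obtain ⟨b, hb, hyb⟩ := Finset.mem_biUnion.mp hy
      exact hrQ b (hu hb) hyb
    · intro x hx y hy hxy
      exact hd x hx y hy hxy
  calc l * B.card ≤ l * ((∑ b ∈ u, (12 * r b + 1) ^ d : ℕ) : ℝ) := by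
        have : (B.card : ℝ) ≤ ((∑ b ∈ u, (12 * r b + 1) ^ d : ℕ) : ℝ) := by exact_mod_cast h1
        exact mul_le_mul_of_nonneg_left this hl.le
    _ = ∑ b ∈ u, l * ((12 * (r b : ℝ) + 1) ^ d) := by
        push_cast
        rw [Finset.mul_sum]
    _ ≤ ∑ b ∈ u, 6 ^ d * ∑ y ∈ cube b (3 * r b), g y := by
        refine Finset.sum_le_sum fun b hb => ?_
        have h3 := hrl b (hu hb)
        have h4 : (12 * (r b : ℝ) + 1) ^ d ≤ 6 ^ d * (2 * (r b : ℝ) + 1) ^ d := by
          rw [← mul_pow]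
          exact pow_le_pow_left₀ (by positivity) (by linarith) d
        calc l * ((12 * (r b : ℝ) + 1) ^ d) ≤ l * (6 ^ d * (2 * (r b : ℝ) + 1) ^ d) :=
              mul_le_mul_of_nonneg_left h4 hl.le
          _ = 6 ^ d * (l * (2 * (r b : ℝ) + 1) ^ d) := by ring
          _ ≤ _ := mul_le_mul_of_nonneg_left h3.le (by positivity)
    _ = 6 ^ d * ∑ b ∈ u, ∑ y ∈ cube b (3 * r b), g y := by rw [Finset.mul_sum]
    _ ≤ 6 ^ d * ∑ y ∈ Q, g y := mul_le_mul_of_nonneg_left h2 (by positivity)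
    _ ≤ 15 ^ d * ∑ y ∈ Q, g y :=
        mul_le_mul_of_nonneg_right (pow_le_pow_left₀ (by norm_num) (by norm_num) d) hQ0

end Pool.Agent.J4.H41.KB
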