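import Pool.Agent.J4.H41.KB.Po
import Pool.Agent.J4.H41.KB.WT
import Pool.Agent.H810R3.Tub.Box

/-!
# Lusin's property and the transfer to caps
-/

set_option autoImplicit false

namespace Pool.Agent.J4.H41.KB

open Set
open Pool.Agent.H810R3.Tub (Space Vec box nor)

variable {d : ℕ}

/-- **Lusin's property** of functions of bounded variation on the lattice -/
theorem lusin {E : Type} [NormedAddCommGroup E] (F : (Fin d → ℤ) → E) (m : ℕ) {l : ℝ} (hl : 0 < l) :
    ∃ G ⊆ cube (0 : Fin d → ℤ) m,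
      l * (((cube (0 : Fin d → ℤ) m \ G).card : ℕ) : ℝ) ≤ 15 ^ d * ∑ y ∈ cube 0 (13 * m), grad F y ∧
      ∀ x ∈ G, ∀ y ∈ G, ∀ ρ : ℕ, 1 ≤ ρ → ρ ≤ 2 * m → (∀ k, |x k - y k| ≤ ρ) →
        ‖F x - F y‖ ≤ 12 * d * 10 ^ d * l * ρ := by
  classical
  refine ⟨(cube 0 m).filter (fun x => ∀ r : ℕ, 1 ≤ r → r ≤ 4 * m →
    ∑ z ∈ cube x (3 * r), grad F z ≤ l * (2 * r + 1) ^ d), Finset.filter_subset _ _, ?_, ?_⟩
  · refine weak (grad F) (grad_nonneg F) _ hl _ ?_
    intro x hx
    rw [Finset.mem_sdiff, Finset.mem_filter] at hx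
    obtain ⟨hx1, hx2⟩ := hx
    have hx3 : ¬ ∀ r : ℕ, 1 ≤ r → r ≤ 4 * m →
        ∑ z ∈ cube x (3 * r), grad F z ≤ l * (2 * r + 1) ^ d := fun h => hx2 ⟨hx1, h⟩
    push Not at hx3
    obtain ⟨r, hr1, hr2, hr3⟩ := hx3
    refine ⟨r, hr1, ?_, hr3⟩
    intro z hz
    rw [mem_cube] at hz hx1 ⊢
    intro k
    have h1 := abs_le.1 (hz k)
    have h2 := abs_le.1 (hx1 k)
    have h3 : (r : ℤ) ≤ 4 * m := by exact_mod_cast hr2
    rw [Pi.zero_apply, sub_zero] at h2 ⊢
    rw [abs_le]
    push_cast at h1 h2 ⊢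
    constructor <;> linarith
  · intro x hx y hy ρ hρ hρm hxy
    rw [Finset.mem_filter] at hx hy
    exact lusin_pair F hl.le hρ hxy (fun r h1 h2 => hx.2 r h1 (by omega))
      (fun r h1 h2 => hy.2 r h1 (by omega))

/-- the position of the lattice point `x` -/
noncomputable def pos (v : Vec d) (N : ℝ) (x : Fin d → ℤ) : Vec d :=
  v + N⁻¹ • WithLp.toLp 2 (fun k => (x k : ℝ))

theorem norm_le_sum (w : Vec d) : ‖w‖ ≤ ∑ k, |w k| := by
  rw [EuclideanSpace.norm_eq]
  refine Real.sqrt_le_iff.2 ⟨Finset.sum_nonneg fun _ _ => abs_nonneg _, ?_⟩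
  have h := Finset.sum_sq_le_sq_sum_of_nonneg (s := Finset.univ) (f := fun k => |w k|)
    (fun k _ => abs_nonneg _)
  simpa [Real.norm_eq_abs] using h

theorem transfer (hd : 1 ≤ d) (R s A : ℝ) (hR : 0 < R) (hs : 0 < s) (hA : 0 < A) :
    ∃ κ A' : ℝ, 0 < κ ∧ 0 < A' ∧ ∀ N : ℝ, 1 ≤ N → ∀ (ι : Type) [Fintype ι] (ω : ι → Vec d)
      (a : ι → Space d) (v : Vec d), (∀ u, ‖u - v‖ ≤ s → ∃ i, ‖u - ω i‖ ≤ R / N) →
      ∑ i, ∑ j, (if ‖ω i - ω j‖ ≤ (2 * R + 1) / N then ‖a i - a j‖ else 0) ≤ A * N ^ (d + 1) →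
      ∃ J : Finset ι, κ * N ^ d ≤ J.card ∧
        ∀ i ∈ J, ∀ j ∈ J, ‖a i - a j‖ ≤ A' * N ^ 2 * (‖ω i - ω j‖ + 1 / N) := by
  classical
  have hd0 : (0 : ℝ) < d := by exact_mod_cast hd
  obtain ⟨n, hn⟩ : ∃ n : ℕ, n = (2 * ⌊2 * R⌋₊ + 1) ^ d := ⟨_, rfl⟩
  have hn0 : 0 < n := by rw [hn]; positivity
  have hnR : (0 : ℝ) < n := by exact_mod_cast hn0
  obtain ⟨S, hS⟩ : ∃ S : ℝ, S = (s / (14 * d)) ^ d := ⟨_, rfl⟩
  have hS0 : 0 < S := by rw [hS]; positivity
  obtain ⟨C₁, hC₁⟩ : ∃ C₁ : ℝ, C₁ = 2 * 15 ^ d * (d * n) / S := ⟨_, rfl⟩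
  have hC₁0 : 0 < C₁ := by rw [hC₁]; positivity
  refine ⟨S / 2 / n, 12 * d * 10 ^ d * C₁ * A * (1 + 2 * R), by positivity, by positivity, ?_⟩
  intro N hN ι _ ω a v hcov hvar
  have hN0 : 0 < N := by linarith
  obtain ⟨i₀, -⟩ := hcov v (by rw [sub_self, norm_zero]; exact hs.le)
  obtain ⟨m, hm⟩ : ∃ m : ℕ, m = ⌊s * N / (14 * d)⌋₊ := ⟨_, rfl⟩
  have hmle : (m : ℝ) ≤ s * N / (14 * d) := by rw [hm]; exact Nat.floor_le (by positivity)
  have hmlt : s * N / (14 * d) < m + 1 := by rw [hm]; exact Nat.lt_floor_add_one _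
  have hSN : S * N ^ d = (s * N / (14 * d)) ^ d := by
    rw [hS, ← mul_pow]
    congr 1
    ring
  rcases Nat.eq_zero_or_pos m with hm0 | hm0
  · -- `N` is bounded
    refine ⟨{i₀}, ?_, ?_⟩
    · rw [Finset.card_singleton]
      have h1 : S * N ^ d ≤ 1 := by
        rw [hSN]
        refine pow_le_one₀ (by positivity) ?_
        rw [hm0] at hmlt
        simpa using hmlt.le
      have h2 : (1 : ℝ) ≤ n := by exact_mod_cast hn0
      have h3 : S / 2 / n * N ^ d ≤ S * N ^ d := by
        refine mul_le_mul_of_nonneg_right ?_ (by positivity)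
        rw [div_le_iff₀ hnR]
        nlinarith
      push_cast
      linarith
    · intro i hi j hj
      rw [Finset.mem_singleton] at hi hj
      rw [hi, hj, sub_self, norm_zero]
      positivity
  -- the caps of the lattice points
  have hc : ∃ c : (Fin d → ℤ) → ι, ∀ x, ‖pos v N x - v‖ ≤ s → ‖pos v N x - ω (c x)‖ ≤ R / N := by
    have : ∀ x, ∃ i, ‖pos v N x - v‖ ≤ s → ‖pos v N x - ω i‖ ≤ R / N := by
      intro x
      by_cases h : ‖pos v N x - v‖ ≤ s
      · obtain ⟨i, hi⟩ := hcov _ h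
        exact ⟨i, fun _ => hi⟩
      · exact ⟨i₀, fun h' => absurd h' h⟩
    choose c hc using this
    exact ⟨c, hc⟩
  obtain ⟨c, hc⟩ := hc
  have hnear : ∀ x ∈ cube (0 : Fin d → ℤ) (14 * m), ‖pos v N x - ω (c x)‖ ≤ R / N := by
    intro x hx
    refine hc x ?_
    rw [mem_cube] at hx
    have e : pos v N x - v = N⁻¹ • (WithLp.toLp 2 (fun k => (x k : ℝ)) : Vec d) := by
      unfold pos
      rw [add_sub_cancel_left]
    rw [e, norm_smul, norm_inv, Real.norm_eq_abs, abs_of_pos hN0, inv_mul_le_iff₀ hN0]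
    refine (norm_le_sum _).trans ?_
    calc ∑ k, |(WithLp.toLp 2 (fun k => (x k : ℝ)) : Vec d) k| ≤ ∑ _k : Fin d, (14 * m : ℝ) := by
          refine Finset.sum_le_sum fun k _ => ?_
          have h1 := hx k
          rw [Pi.zero_apply, sub_zero] at h1
          have h2 : |(x k : ℝ)| ≤ ((14 * m : ℕ) : ℝ) := by exact_mod_cast h1
          push_cast at h2
          exact h2
      _ = d * (14 * m) := by
          rw [Finset.sum_const, Finset.card_univ, Fintype.card_fin, nsmul_eq_mul]
      _ ≤ d * (14 * (s * N / (14 * d))) := by gcongr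
      _ = N * s := by field_simp
  -- differences of positions
  have hpos : ∀ x y, pos v N x - pos v N y = N⁻¹ • (WithLp.toLp 2 (fun k => ((x k - y k : ℤ) : ℝ)) : Vec d) := by
    intro x y
    unfold pos
    rw [add_sub_add_left_eq_sub, ← smul_sub]
    congr 1
    ext k
    simp
  have hcoord : ∀ x y k, |((x k - y k : ℤ) : ℝ)| ≤ N * ‖pos v N x - pos v N y‖ := by
    intro x y k
    rw [hpos, norm_smul, norm_inv, Real.norm_eq_abs, abs_of_pos hN0, ← mul_assoc,
      mul_inv_cancel₀ hN0.ne', one_mul]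
    have := PiLp.norm_apply_le (WithLp.toLp 2 (fun k => ((x k - y k : ℤ) : ℝ)) : Vec d) k
    rw [Real.norm_eq_abs] at this
    exact this
  -- the fibres
  have hfib : ∀ (T : Finset (Fin d → ℤ)), T ⊆ cube 0 (14 * m) → ∀ i,
      (T.filter (fun x => c x = i)).card ≤ n := by
    intro T hT i
    rcases (T.filter (fun x => c x = i)).eq_empty_or_nonempty with h | ⟨x₀, hx₀⟩
    · rw [h, Finset.card_empty]
      exact hn0.le
    · rw [hn, ← card_cube x₀]
      refine Finset.card_le_card ?_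
      intro x hx
      rw [Finset.mem_filter] at hx hx₀
      rw [mem_cube]
      intro k
      have h1 := hnear x (hT hx.1)
      have h2 := hnear x₀ (hT hx₀.1)
      rw [hx.2] at h1
      rw [hx₀.2] at h2
      have h3 : ‖pos v N x - pos v N x₀‖ ≤ 2 * R / N := by
        calc ‖pos v N x - pos v N x₀‖ ≤ ‖pos v N x - ω i‖ + ‖ω i - pos v N x₀‖ :=
              norm_sub_le_norm_sub_add_norm_sub _ _ _
          _ ≤ R / N + R / N := add_le_add h1 (by rw [norm_sub_rev]; exact h2)
          _ = _ := by ring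
      have h4 : |((x k - x₀ k : ℤ) : ℝ)| ≤ 2 * R := by
        refine (hcoord x x₀ k).trans ?_
        calc N * ‖pos v N x - pos v N x₀‖ ≤ N * (2 * R / N) := by gcongr
          _ = 2 * R := by field_simp
      have h5 : (((x k - x₀ k).natAbs : ℕ) : ℝ) ≤ 2 * R := by
        rw [Nat.cast_natAbs]
        push_cast
        push_cast at h4
        exact h4
      have h6 := Nat.le_floor h5
      rw [← Int.natCast_natAbs]
      exact_mod_cast h6
  obtain ⟨F, hF⟩ : ∃ F : (Fin d → ℤ) → Space d, F = fun x => a (c x) := ⟨_, rfl⟩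
  -- the variation of `F`
  have hV : ∑ y ∈ cube (0 : Fin d → ℤ) (13 * m), grad F y ≤ d * n * (A * N ^ (d + 1)) := by
    unfold grad
    rw [Finset.sum_comm]
    have hk : ∀ k : Fin d, ∑ y ∈ cube (0 : Fin d → ℤ) (13 * m), ‖F (y + Pi.single k 1) - F y‖ ≤
        n * (A * N ^ (d + 1)) := by
      intro k
      obtain ⟨g, hg⟩ : ∃ g : ι × ι → ℝ, g = fun p =>
        if ‖ω p.1 - ω p.2‖ ≤ (2 * R + 1) / N then ‖a p.1 - a p.2‖ else 0 := ⟨_, rfl⟩
      have hg0 : ∀ p, 0 ≤ g p := by
        intro p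
        rw [hg]
        dsimp only
        split_ifs
        · exact norm_nonneg _
        · exact le_rfl
      have h13 : cube (0 : Fin d → ℤ) (13 * m) ⊆ cube 0 (14 * m) := cube_mono (by omega)
      have h1 : ∀ y ∈ cube (0 : Fin d → ℤ) (13 * m), ‖F (y + Pi.single k 1) - F y‖ =
          g (c y, c (y + Pi.single k 1)) := by
        intro y hy
        have hy2 : y + Pi.single k 1 ∈ cube (0 : Fin d → ℤ) (14 * m) := by
          rw [mem_cube] at hy ⊢
          intro l
          have h2 := abs_le.1 (hy l)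
          have hm1 : (1 : ℤ) ≤ m := by exact_mod_cast hm0
          have h3 : |(Pi.single k 1 : Fin d → ℤ) l| ≤ 1 := by
            by_cases hl : l = k
            · rw [hl, Pi.single_eq_same, abs_one]
            · rw [Pi.single_eq_of_ne hl, abs_zero]
              exact zero_le_one
          have h4 := abs_le.1 h3
          rw [Pi.zero_apply, sub_zero] at h2 ⊢
          rw [Pi.add_apply, abs_le]
          push_cast at h2 ⊢
          constructor <;> linarith
        have h2 := hnear y (h13 hy)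
        have h3 := hnear _ hy2
        have h4 : ‖pos v N y - pos v N (y + Pi.single k 1)‖ ≤ 1 / N := by
          rw [hpos, norm_smul, norm_inv, Real.norm_eq_abs, abs_of_pos hN0, one_div]
          have h5 : (WithLp.toLp 2 (fun l => ((y l - (y + Pi.single k (1 : ℤ) : Fin d → ℤ) l : ℤ) : ℝ)) :
              Vec d) = -(EuclideanSpace.single k (1 : ℝ)) := by
            ext l
            by_cases hl : l = k
            · rw [hl]; simp
            · simp [hl]
          rw [h5, norm_neg, EuclideanSpace.norm_single, norm_one, mul_one]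
        have h5 : ‖ω (c y) - ω (c (y + Pi.single k 1))‖ ≤ (2 * R + 1) / N := by
          calc ‖ω (c y) - ω (c (y + Pi.single k 1))‖
              ≤ ‖ω (c y) - pos v N y‖ + ‖pos v N y - pos v N (y + Pi.single k 1)‖ +
                ‖pos v N (y + Pi.single k 1) - ω (c (y + Pi.single k 1))‖ := by
                have t1 := norm_sub_le_norm_sub_add_norm_sub (ω (c y)) (pos v N y)
                  (ω (c (y + Pi.single k 1)))
                have t2 := norm_sub_le_norm_sub_add_norm_sub (pos v N y)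
                  (pos v N (y + Pi.single k 1)) (ω (c (y + Pi.single k 1)))
                linarith
            _ ≤ R / N + 1 / N + R / N := by
                rw [norm_sub_rev (ω (c y))]
                exact add_le_add (add_le_add h2 h4) h3
            _ = _ := by ring
        rw [hg, hF]
        dsimp only
        rw [if_pos h5, norm_sub_rev]
      rw [Finset.sum_congr rfl h1, ← Finset.sum_fiberwise _ (fun y => (c y, c (y + Pi.single k 1)))]
      calc ∑ p : ι × ι, ∑ y ∈ (cube (0 : Fin d → ℤ) (13 * m)).filter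
            (fun y => (c y, c (y + Pi.single k 1)) = p), g (c y, c (y + Pi.single k 1))
          ≤ ∑ p : ι × ι, (n : ℝ) * g p := by
            refine Finset.sum_le_sum fun p _ => ?_
            have h2 : ∑ y ∈ (cube (0 : Fin d → ℤ) (13 * m)).filter
                (fun y => (c y, c (y + Pi.single k 1)) = p), g (c y, c (y + Pi.single k 1)) =
                ∑ y ∈ (cube (0 : Fin d → ℤ) (13 * m)).filter
                (fun y => (c y, c (y + Pi.single k 1)) = p), g p :=
              Finset.sum_congr rfl fun y hy => by rw [(Finset.mem_filter.1 hy).2]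
            rw [h2, Finset.sum_const, nsmul_eq_mul]
            refine mul_le_mul_of_nonneg_right ?_ (hg0 p)
            have h3 : ((cube (0 : Fin d → ℤ) (13 * m)).filter
                (fun y => (c y, c (y + Pi.single k 1)) = p)).card ≤ n := by
              refine le_trans (Finset.card_le_card ?_) (hfib _ h13 p.1)
              intro y hy
              rw [Finset.mem_filter] at hy ⊢
              exact ⟨hy.1, by rw [← hy.2]⟩
            exact_mod_cast h3
        _ = n * ∑ p : ι × ι, g p := by rw [Finset.mul_sum]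
        _ ≤ n * (A * N ^ (d + 1)) := by
            refine mul_le_mul_of_nonneg_left ?_ hnR.le
            rw [Fintype.sum_prod_type]
            rw [hg]
            exact hvar
    calc ∑ k : Fin d, ∑ y ∈ cube (0 : Fin d → ℤ) (13 * m), ‖F (y + Pi.single k 1) - F y‖
        ≤ ∑ _k : Fin d, n * (A * N ^ (d + 1)) := Finset.sum_le_sum fun k _ => hk k
      _ = _ := by
          rw [Finset.sum_const, Finset.card_univ, Fintype.card_fin, nsmul_eq_mul]
          ring
  obtain ⟨l, hl⟩ : ∃ l : ℝ, l = C₁ * A * N := ⟨_, rfl⟩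
  have hl0 : 0 < l := by rw [hl]; positivity
  obtain ⟨G, hG, hG1, hG2⟩ := lusin F m hl0
  have hG14 : G ⊆ cube 0 (14 * m) := hG.trans (cube_mono (by omega))
  -- the number of good lattice points
  have hcard : S / 2 * N ^ d ≤ (G.card : ℝ) := by
    have h1 : ((cube (0 : Fin d → ℤ) m).card : ℝ) = (G.card : ℝ) +
        (((cube (0 : Fin d → ℤ) m \ G).card : ℕ) : ℝ) := by
      rw [← Nat.cast_add, Finset.card_sdiff_of_subset hG, Nat.add_sub_cancel' (Finset.card_le_card hG)]
    have h2 : S * N ^ d ≤ ((cube (0 : Fin d → ℤ) m).card : ℝ) := by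
      rw [card_cube, hSN]
      push_cast
      refine pow_le_pow_left₀ (by positivity) ?_ d
      have : (0 : ℝ) ≤ m := Nat.cast_nonneg m
      linarith
    have h3 : (((cube (0 : Fin d → ℤ) m \ G).card : ℕ) : ℝ) ≤ S / 2 * N ^ d := by
      have h4 := hG1.trans (mul_le_mul_of_nonneg_left hV (by positivity))
      have h5 : 15 ^ d * (d * n * (A * N ^ (d + 1))) = l * (S / 2 * N ^ d) := by
        rw [hl, hC₁]
        field_simp
        ring
      rw [h5] at h4
      exact le_of_mul_le_mul_left h4 hl0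
    linarith
  refine ⟨G.image c, ?_, ?_⟩
  · have h1 : G.card ≤ n * (G.image c).card :=
      Finset.card_le_mul_card_image G n (fun i _ => hfib G hG14 i)
    have h2 : (G.card : ℝ) ≤ n * ((G.image c).card : ℝ) := by exact_mod_cast h1
    have h3 : S / 2 / n * N ^ d = (S / 2 * N ^ d) / n := by ring
    rw [h3, div_le_iff₀ hnR]
    linarith
  · intro i hi j hj
    obtain ⟨x, hx, rfl⟩ := Finset.mem_image.1 hi
    obtain ⟨y, hy, rfl⟩ := Finset.mem_image.1 hj
    obtain ⟨ρ, hρ⟩ : ∃ ρ : ℕ, ρ = Finset.univ.sup (fun k => (x k - y k).natAbs) := ⟨_, rfl⟩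
    have hρk : ∀ k, |x k - y k| ≤ ρ := by
      intro k
      rw [Int.abs_eq_natAbs, hρ]
      exact_mod_cast Finset.le_sup (f := fun k => (x k - y k).natAbs) (Finset.mem_univ k)
    obtain ⟨k₀, -, hk₀⟩ := Finset.exists_mem_eq_sup (Finset.univ : Finset (Fin d))
      ⟨⟨0, hd⟩, Finset.mem_univ _⟩ (fun k => (x k - y k).natAbs)
    have hρN : (ρ : ℝ) ≤ N * ‖pos v N x - pos v N y‖ := by
      rw [hρ, hk₀, Nat.cast_natAbs]
      have := hcoord x y k₀
      push_cast at this ⊢
      exact this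
    have h1 : ‖pos v N x - pos v N y‖ ≤ ‖ω (c x) - ω (c y)‖ + 2 * R / N := by
      have t1 := norm_sub_le_norm_sub_add_norm_sub (pos v N x) (ω (c x)) (pos v N y)
      have t2 := norm_sub_le_norm_sub_add_norm_sub (ω (c x)) (ω (c y)) (pos v N y)
      have t3 := hnear x (hG14 hx)
      have t4 := hnear y (hG14 hy)
      rw [norm_sub_rev (ω (c y))] at t2
      have t5 : 2 * R / N = R / N + R / N := by ring
      rw [t5]
      linarith
    have h2 : (ρ : ℝ) ≤ (1 + 2 * R) * N * (‖ω (c x) - ω (c y)‖ + 1 / N) := by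
      refine hρN.trans ((mul_le_mul_of_nonneg_left h1 hN0.le).trans ?_)
      have e : N * (‖ω (c x) - ω (c y)‖ + 2 * R / N) = N * ‖ω (c x) - ω (c y)‖ + 2 * R := by
        field_simp
      have e2 : (1 + 2 * R) * N * (‖ω (c x) - ω (c y)‖ + 1 / N) =
          (1 + 2 * R) * (N * ‖ω (c x) - ω (c y)‖) + (1 + 2 * R) := by
        field_simp
      rw [e, e2]
      have : 0 ≤ N * ‖ω (c x) - ω (c y)‖ := by positivity
      nlinarith
    rcases Nat.eq_zero_or_pos ρ with h0 | h0
    · have hxy : x = y := by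
        funext k
        have := hρk k
        rw [h0, Nat.cast_zero, abs_nonpos_iff] at this
        linarith
      rw [hxy, sub_self, norm_zero]
      positivity
    · have hρm : ρ ≤ 2 * m := by
        rw [hρ]
        refine Finset.sup_le fun k _ => ?_
        have h3 := hG hx
        have h4 := hG hy
        rw [mem_cube] at h3 h4
        have h5 := abs_le.1 (h3 k)
        have h6 := abs_le.1 (h4 k)
        rw [Pi.zero_apply, sub_zero] at h5 h6
        omega
      have h3 := hG2 x hx y hy ρ h0 hρm hρk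
      have e : F x - F y = a (c x) - a (c y) := by rw [hF]
      rw [e] at h3
      refine h3.trans ?_
      calc 12 * d * 10 ^ d * l * ρ
          ≤ 12 * d * 10 ^ d * l * ((1 + 2 * R) * N * (‖ω (c x) - ω (c y)‖ + 1 / N)) := by gcongr
        _ = _ := by rw [hl]; ring

end Pool.Agent.J4.H41.KB
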